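import Pool.Agent.Work.MP_f82ddf_M0.Interface4

set_option autoImplicit false

/-! # Block FMN (helper6): the finite morphism -/

namespace Pool.ThmM0

open MvPolynomial Finset Pool.Agent.Work.MP_f82ddf_nt Pool.Agent.Work.MP_f82ddf_nt.DQ Pool.ThmM

namespace FMN

/-- some power of every variable is in the ideal -/
theorem pow_mem {K : Type} [Field K] {m N : ℕ} (S : Set (MvPolynomial (Fin (m + 1)) K))
    (h : Fin (N + 1) → MvPolynomial (Fin (m + 1)) K)
    (hz : ∀ v : Fin (m + 1) → AlgebraicClosure K, (∀ F ∈ S, aeval v F = 0) →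
      (∀ j, aeval v (h j) = 0) → v = 0) :
    ∃ t : ℕ, ∀ i, (X i : MvPolynomial (Fin (m + 1)) K) ^ t ∈
      Ideal.span S ⊔ Ideal.span (Set.range h) := by
  have h0 : ∀ i, ∃ t : ℕ, (X i : MvPolynomial (Fin (m + 1)) K) ^ t ∈
      Ideal.span S ⊔ Ideal.span (Set.range h) := by
    intro i
    have h1 : (X i : MvPolynomial (Fin (m + 1)) K) ∈ vanishingIdeal K
        (zeroLocus (AlgebraicClosure K) (Ideal.span S ⊔ Ideal.span (Set.range h))) := by
      intro v hv
      have h2 : v = 0 := hz v
        (fun F hF => hv F (Ideal.mem_sup_left (Ideal.subset_span hF)))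
        (fun j => hv _ (Ideal.mem_sup_right (Ideal.subset_span ⟨j, rfl⟩)))
      rw [aeval_X, h2]
      rfl
    rw [vanishingIdeal_zeroLocus_eq_radical] at h1
    exact h1
  choose t ht using h0
  refine ⟨∑ i, t i, fun i => ?_⟩
  obtain ⟨c, hc⟩ := Nat.exists_eq_add_of_le
    (Finset.single_le_sum (fun j _ => Nat.zero_le (t j)) (Finset.mem_univ i) : t i ≤ ∑ j, t j)
  rw [hc, pow_add]
  exact Ideal.mul_mem_right _ _ (ht i)

theorem deg_eq {K : Type} [Field K] {m T : ℕ} {p : MvPolynomial (Fin (m + 1)) K}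
    (hp : p.IsHomogeneous T) {s : Fin (m + 1) →₀ ℕ} (hs : s ∈ p.support) : ∑ i, s i = T := by
  have h1 := hp (mem_support_iff.1 hs)
  rw [← Finsupp.degree_eq_sum, Finsupp.degree_eq_weight_one]
  exact h1

/-- forms of high degree are in the ideal -/
theorem form_mem {K : Type} [Field K] {m : ℕ} (I : Ideal (MvPolynomial (Fin (m + 1)) K)) (t : ℕ)
    (ht : ∀ i, (X i : MvPolynomial (Fin (m + 1)) K) ^ t ∈ I) (p : MvPolynomial (Fin (m + 1)) K)
    (T : ℕ) (hp : p.IsHomogeneous T) (hT : (m + 1) * t ≤ T) : p ∈ I := by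
  rw [p.as_sum]
  refine Ideal.sum_mem _ fun s hs => ?_
  have h1 := deg_eq hp hs
  obtain ⟨i, hi⟩ : ∃ i, t ≤ s i := by
    by_contra hcon
    push Not at hcon
    have h2 : ∑ i, s i < ∑ _i : Fin (m + 1), t :=
      Finset.sum_lt_sum_of_nonempty ⟨0, Finset.mem_univ _⟩ (fun i _ => hcon i)
    rw [Finset.sum_const, Finset.card_univ, Fintype.card_fin, smul_eq_mul, h1] at h2
    omega
  have h3 : (monomial s (coeff s p) : MvPolynomial (Fin (m + 1)) K) =
      X i ^ t * monomial (s - Finsupp.single i t) (coeff s p) := by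
    rw [X_pow_eq_monomial, monomial_mul, one_mul, add_tsub_cancel_of_le]
    exact Finsupp.single_le_iff.2 hi
  rw [h3]
  exact I.mul_mem_right _ (ht i)

/-- the value as a ring homomorphism -/
noncomputable def vmH {K : Type} [Field K] {m : ℕ} (σ : K →+* ℂ) (x : Fin (m + 1) → Mer) :
    MvPolynomial (Fin (m + 1)) K →+* Mer := eval₂Hom ((algebraMap ℂ Mer).comp σ) x

theorem vm_eq {K : Type} [Field K] {m : ℕ} (σ : K →+* ℂ) (x : Fin (m + 1) → Mer)
    (F : MvPolynomial (Fin (m + 1)) K) : vm σ x F = vmH σ x F := rfl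

attribute [local instance] MvPolynomial.gradedAlgebra

theorem decomp {K : Type} [Field K] {m N e : ℕ} (S : Set (MvPolynomial (Fin (m + 1)) K))
    (h : Fin (N + 1) → MvPolynomial (Fin (m + 1)) K) (hS : ∀ F ∈ S, ∃ d, F.IsHomogeneous d)
    (hh : ∀ j, (h j).IsHomogeneous e) (σ : K →+* ℂ) (x : Fin (m + 1) → Mer) (hx : OnMer σ S x)
    (p : MvPolynomial (Fin (m + 1)) K) (T : ℕ) (hp : p.IsHomogeneous T) (hT : e ≤ T)
    (hpI : p ∈ Ideal.span S ⊔ Ideal.span (Set.range h)) :
    ∃ g : Fin (N + 1) → MvPolynomial (Fin (m + 1)) K, (∀ j, (g j).IsHomogeneous (T - e)) ∧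
      vm σ x p = ∑ j, vm σ x (g j) * vm σ x (h j) := by
  obtain ⟨a, ha, b, hb, hab⟩ := Submodule.mem_sup.1 hpI
  obtain ⟨g, hg⟩ := Ideal.mem_span_range_iff_exists_fun.1 hb
  have hI := Ideal.homogeneous_span (homogeneousSubmodule (Fin (m + 1)) K) S
    (fun F hF => by
      obtain ⟨d, hd⟩ := hS F hF
      exact ⟨d, hd⟩)
  have h1 : ((DirectSum.decompose (homogeneousSubmodule (Fin (m + 1)) K) a T :
      homogeneousSubmodule (Fin (m + 1)) K T) : MvPolynomial (Fin (m + 1)) K) ∈ Ideal.span S :=
    hI T ha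
  have h2 : ((DirectSum.decompose (homogeneousSubmodule (Fin (m + 1)) K) p T :
      homogeneousSubmodule (Fin (m + 1)) K T) : MvPolynomial (Fin (m + 1)) K) = p :=
    DirectSum.decompose_of_mem_same _ hp
  have h3 : vmH σ x (DirectSum.decompose (homogeneousSubmodule (Fin (m + 1)) K) a T :
      homogeneousSubmodule (Fin (m + 1)) K T) = 0 := by
    have h4 : Ideal.span S ≤ RingHom.ker (vmH σ x) := by
      rw [Ideal.span_le]
      exact fun F hF => hx F hF
    exact h4 h1
  refine ⟨fun j => (DirectSum.decompose (homogeneousSubmodule (Fin (m + 1)) K) (g j) (T - e) :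
      homogeneousSubmodule (Fin (m + 1)) K (T - e)), fun j => (mem_homogeneousSubmodule _ _).1
        (SetLike.coe_mem (DirectSum.decompose (homogeneousSubmodule (Fin (m + 1)) K) (g j)
          (T - e))), ?_⟩
  have h5 : p = ((DirectSum.decompose (homogeneousSubmodule (Fin (m + 1)) K) a T :
      homogeneousSubmodule (Fin (m + 1)) K T) : MvPolynomial (Fin (m + 1)) K) +
      ∑ j, ((DirectSum.decompose (homogeneousSubmodule (Fin (m + 1)) K) (g j) (T - e) :
      homogeneousSubmodule (Fin (m + 1)) K (T - e)) : MvPolynomial (Fin (m + 1)) K) * h j := by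
    conv_lhs => rw [← h2, ← hab, ← hg]
    rw [DirectSum.decompose_add, DirectSum.add_apply, Submodule.coe_add,
      DirectSum.decompose_sum, DFinsupp.finsetSum_apply, AddSubmonoidClass.coe_finsetSum]
    congr 1
    refine Finset.sum_congr rfl fun j _ => ?_
    exact DirectSum.coe_decompose_mul_of_right_mem_of_le _ (hh j) hT
  rw [vm_eq, h5, map_add, h3, zero_add, map_sum]
  refine Finset.sum_congr rfl fun j _ => ?_
  rw [map_mul]
  rfl

end FMN

open FMN in
theorem stmt_FMN : Stmt_FMN := by
  classical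
  intro K _ m N e S h hS he hh hz σ x hx hx0
  obtain ⟨t, ht⟩ := pow_mem S h hz
  have hy : ∃ j₀, vm σ x (h j₀) ≠ 0 := by
    by_contra hcon
    push Not at hcon
    apply hx0
    funext i
    by_contra h0
    have h2 : Ideal.span S ⊔ Ideal.span (Set.range h) ≤ RingHom.ker (vmH σ x) := by
      rw [sup_le_iff, Ideal.span_le, Ideal.span_le]
      refine ⟨fun F hF => hx F hF, ?_⟩
      rintro _ ⟨j, rfl⟩
      exact hcon j
    have h3 : vmH σ x (X i ^ t) = 0 := h2 (ht i)
    rw [map_pow] at h3
    have h4 : vmH σ x (X i) = x i := eval₂_X _ _ _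
    rw [h4] at h3
    exact pow_ne_zero t h0 h3
  obtain ⟨j₀, hj₀⟩ := hy
  refine ⟨j₀, hj₀, ?_⟩
  set u := vm σ x (h j₀) with hu
  set A := Algebra.adjoin ℂ (Set.range fun j => vm σ x (h j) / u) with hA
  set s0 := (m + 1) * t with hs0
  set D := e * s0 with hD
  set G : Finset Mer := (Finset.finsuppAntidiag (Finset.univ : Finset (Fin (m + 1))) D).image
    (fun β => (∏ i, x i ^ β i) / u ^ s0) with hG
  set N' : Submodule A Mer := Submodule.span A (G : Set Mer) with hN'
  have hmon : ∀ β : Fin (m + 1) →₀ ℕ, ∑ i, β i = D → (∏ i, x i ^ β i) / u ^ s0 ∈ N' := by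
    intro β hβ
    apply Submodule.subset_span
    rw [Finset.mem_coe, hG, Finset.mem_image]
    exact ⟨β, Finset.mem_finsuppAntidiag.2 ⟨hβ, Finset.subset_univ _⟩, rfl⟩
  have hform : ∀ g : MvPolynomial (Fin (m + 1)) K, g.IsHomogeneous D →
      vm σ x g / u ^ s0 ∈ N' := by
    intro g hg
    rw [vm, eval₂_eq', Finset.sum_div]
    refine Submodule.sum_mem _ fun s hs => ?_
    have h1 := hmon s (deg_eq hg hs)
    have h2 := N'.smul_mem (algebraMap ℂ A (σ (coeff s g))) h1
    have h3 : algebraMap ℂ A (σ (coeff s g)) • ((∏ i, x i ^ s i) / u ^ s0) =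
        ((algebraMap ℂ Mer).comp σ) (coeff s g) * (∏ i, x i ^ s i) / u ^ s0 := by
      rw [Algebra.smul_def, ← IsScalarTower.algebraMap_apply, mul_div_assoc]
      rfl
    rw [← h3]
    exact h2
  have hx1 : ∃ i, x i ≠ 0 := by
    by_contra hcon
    push Not at hcon
    exact hx0 (funext hcon)
  have hw : ∀ i, IsIntegral A (x i ^ e / u) := by
    intro i
    refine isIntegral_of_smul_mem_submodule N' ?_ ⟨G, rfl⟩ _ ?_
    · obtain ⟨l, hl⟩ := hx1
      intro hbot
      have h1 := hmon (Finsupp.single l D) (by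
        rw [Finset.sum_eq_single l]
        · rw [Finsupp.single_eq_same]
        · intro b _ hb
          rw [Finsupp.single_eq_of_ne hb]
        · intro hl'
          exact absurd (Finset.mem_univ _) hl')
      rw [hbot, Submodule.mem_bot, div_eq_zero_iff] at h1
      rcases h1 with h1 | h1
      · rw [Finset.prod_eq_zero_iff] at h1
        obtain ⟨b, -, hb⟩ := h1
        by_cases hbl : b = l
        · subst hbl
          rw [Finsupp.single_eq_same] at hb
          exact pow_ne_zero _ hl hb
        · rw [Finsupp.single_eq_of_ne hbl, pow_zero] at hb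
          exact one_ne_zero hb
      · exact pow_ne_zero _ hj₀ h1
    · intro n hn
      induction hn using Submodule.span_induction with
      | zero => rw [smul_zero]; exact N'.zero_mem
      | add a b _ _ ha hb => rw [smul_add]; exact N'.add_mem ha hb
      | smul r a _ ha =>
        rw [smul_comm]
        exact N'.smul_mem r ha
      | mem a ha =>
        rw [Finset.mem_coe, hG, Finset.mem_image] at ha
        obtain ⟨β, hβ, rfl⟩ := ha
        have hβ1 : ∑ i, β i = D := (Finset.mem_finsuppAntidiag.1 hβ).1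
        have hp : (monomial β (1 : K) * X i ^ e).IsHomogeneous (D + e) := by
          refine IsHomogeneous.mul (isHomogeneous_monomial _ ?_) (isHomogeneous_X_pow i e)
          rw [Finsupp.degree_eq_sum]
          exact hβ1
        have hTt : (m + 1) * t ≤ D + e := by
          rw [← hs0, hD]
          calc s0 = 1 * s0 := (one_mul _).symm
            _ ≤ e * s0 := Nat.mul_le_mul_right _ he
            _ ≤ e * s0 + e := Nat.le_add_right _ _
        obtain ⟨g, hg, hgv⟩ := decomp S h hS hh σ x hx _ (D + e) hp (by omega)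
          (form_mem _ t ht _ _ hp hTt)
        rw [Nat.add_sub_cancel] at hg
        have h1 : vm σ x (monomial β (1 : K) * X i ^ e) = (∏ i, x i ^ β i) * x i ^ e := by
          rw [vm_eq, map_mul, map_pow]
          have h4 : vmH σ x (X i) = x i := eval₂_X _ _ _
          have h5 : vmH σ x (monomial β (1 : K)) = ∏ i, x i ^ β i := by
            show eval₂ _ _ _ = _
            rw [eval₂_monomial, map_one, one_mul, Finsupp.prod_fintype]
            intro i
            exact pow_zero _
          rw [h4, h5]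
        have h2 : (x i ^ e / u) • ((∏ i, x i ^ β i) / u ^ s0) =
            ∑ j, (vm σ x (h j) / u) * (vm σ x (g j) / u ^ s0) := by
          have h3 : ∑ j, (vm σ x (h j) / u) * (vm σ x (g j) / u ^ s0) =
              (∑ j, vm σ x (g j) * vm σ x (h j)) / (u * u ^ s0) := by
            rw [Finset.sum_div]
            refine Finset.sum_congr rfl fun j _ => ?_
            rw [div_mul_div_comm, mul_comm (vm σ x (h j))]
          rw [h3, ← hgv, h1, smul_eq_mul, div_mul_div_comm, mul_comm (x i ^ e)]
        rw [h2]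
        refine N'.sum_mem fun j _ => ?_
        have h4 : (⟨vm σ x (h j) / u, Algebra.subset_adjoin ⟨j, rfl⟩⟩ : A) •
            (vm σ x (g j) / u ^ s0) = (vm σ x (h j) / u) * (vm σ x (g j) / u ^ s0) := rfl
        rw [← h4]
        exact N'.smul_mem _ (hform _ (hg j))
  intro i i₀ hi₀
  have h1 : IsAlgebraic A (x i ^ e / u) := (hw i).isAlgebraic
  have h2 : IsAlgebraic A (x i₀ ^ e / u) := (hw i₀).isAlgebraic
  have h3 : IsAlgebraic A ((x i / x i₀) ^ e) := by
    have h4 : (x i / x i₀) ^ e = (x i ^ e / u) * (x i₀ ^ e / u)⁻¹ := by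
      have h5 : x i₀ ^ e ≠ 0 := pow_ne_zero _ hi₀
      rw [div_pow]
      field_simp
    rw [h4]
    exact h1.mul h2.inv
  exact h3.of_pow he

end Pool.ThmM0
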