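import Pool.Agent.Work.MP_f82ddf_M0.Interface4

set_option autoImplicit false

/-! # THEOREM M (MP_f82ddf_nt), block CST -/

namespace Pool.ThmM0

open MvPolynomial Finset Pool.Agent.Work.MP_f82ddf_nt Pool.Agent.Work.MP_f82ddf_nt.DQ Pool.ThmM

private lemma CST_const {F : Type*} [Field F] [Algebra ℂ F] (A : Subalgebra ℂ F) (hA : A = ⊥)
    (q : F) (hq : IsAlgebraic A q) : ∃ z : ℂ, q = algebraMap ℂ F z := by
  subst hA
  have h1 : IsAlgebraic ℂ q := by
    obtain ⟨p, hp0, hp⟩ := hq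
    let e : (⊥ : Subalgebra ℂ F) ≃ₐ[ℂ] ℂ := Algebra.botEquiv ℂ F
    refine ⟨p.map (e : (⊥ : Subalgebra ℂ F) →+* ℂ), ?_, ?_⟩
    · rw [Ne, Polynomial.map_eq_zero_iff]
      · exact hp0
      · exact e.injective
    · rw [Polynomial.aeval_def, Polynomial.eval₂_map]
      rw [Polynomial.aeval_def] at hp
      rw [← hp]
      congr 1
      ext a
      obtain ⟨z, hz⟩ := Algebra.mem_bot.mp a.2
      have ha : a = algebraMap ℂ (⊥ : Subalgebra ℂ F) z := by
        apply Subtype.ext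
        rw [← hz]
        rfl
      rw [ha]
      simp [e]
  have h2 : IsIntegral ℂ q := isAlgebraic_iff_isIntegral.mp h1
  obtain ⟨z, hz⟩ := minpoly.mem_range_of_degree_eq_one ℂ q
    (IsAlgClosed.degree_eq_one_of_irreducible ℂ (minpoly.irreducible h2))
  exact ⟨z, hz.symm⟩

theorem stmt_CST : Stmt_CST := by
  intro N y j₀ hj₀ hy q hq
  refine CST_const _ ?_ q hq
  rw [eq_bot_iff]
  refine Algebra.adjoin_le ?_
  rintro _ ⟨j, rfl⟩
  obtain ⟨z, hz⟩ := hy j
  refine Algebra.mem_bot.mpr ⟨z, ?_⟩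
  simp only [hz]
  rw [mul_div_assoc, div_self hj₀, mul_one]

end Pool.ThmM0
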