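import Pool.Agent.Work.MP_f82ddf_M0.Interface3

set_option autoImplicit false

namespace Pool.ThmM0

open MvPolynomial Finset Pool.Agent.Work.MP_f82ddf_nt Pool.Agent.Work.MP_f82ddf_nt.DQ Pool.ThmM

/-- CDM -/
theorem stmt_CDM (h1 : Stmt_COREH) (h2 : Pool.ThmM.Stmt_T3)
    (h3 : Pool.Agent.Work.MP_f82ddf_M5.Stmt_P5) : Stmt_CDM := by
  classical
  intro r n
  choose β hβ using fun w d => h1 r n w d
  obtain ⟨N₁, dmax, hT⟩ := h2 r (fun w d => max (n + 1) (β w d))
  refine ⟨N₁, fun S hS hcard hn k x hk hx hper hpow m i₀ τ hτ => ?_⟩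
  obtain ⟨w, d, Q, A, T, lift, hD, -, hTS, hβT, hdiv⟩ := hT S hS hcard
  have hnT : ∀ v : Fin (r + 1) → ℂ, v ≠ 0 → (T.filter fun u => ∑ i, v i * u i = 0).card ≤ n :=
    fun v hv => (card_le_card (filter_subset_filter _ hTS)).trans (hn v hv)
  obtain ⟨c, Fix, Psi, hch⟩ := hβ w d Q A T lift hD ((le_max_right _ _).trans hβT)
    (fun e f he hf hfT => hdiv e f (he.trans (le_max_right _ _)) hf hfT)
    (fun u hu v hv => hS u (hTS hu) v (hTS hv)) hnT k x hk hx hper
    (fun u hu => hpow u (hTS hu))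
  refine h3 (w + 2) r d d k Q A ⟨hD.irr, hD.homQ, hD.homA, ?_⟩ Mer x c Fix Psi i₀ m τ
    (hx.ne_zero i₀) hch hτ
  intro y hy
  by_contra hy0
  have hall : ∀ u ∈ T, ∑ i, y i * u i = 0 := by
    intro u hu
    obtain ⟨c', hc', hA⟩ := hD.prop u hu
    obtain ⟨B, hB⟩ := hy
    have h4 : eval (lift u) (Pool.Agent.Work.MP_f82ddf_M5.comb (RingHom.id ℂ) A y) = 0 := by
      rw [hB, map_mul, hD.zero u hu, zero_mul]
    have h5 : eval (lift u) (Pool.Agent.Work.MP_f82ddf_M5.comb (RingHom.id ℂ) A y) =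
        c' * ∑ i, y i * u i := by
      rw [Pool.Agent.Work.MP_f82ddf_M5.comb, map_sum, Finset.mul_sum]
      refine Finset.sum_congr rfl fun i _ => ?_
      rw [map_mul, eval_C, map_id, hA]
      ring
    rw [h5] at h4
    exact (mul_eq_zero.1 h4).resolve_left hc'
  have h6 := hnT y hy0
  rw [Finset.filter_true_of_mem hall] at h6
  have h7 : n + 1 ≤ T.card := (le_max_left _ _).trans hβT
  omega

end Pool.ThmM0
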