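import Pool.Agent.Work.MP_f82ddf_M0.Interface3

set_option autoImplicit false

namespace Pool.ThmM0.CH1

open MvPolynomial Finset

theorem res11 {B : Type} [CommRing B] (f g : Polynomial B) :
    Polynomial.resultant f g 1 1 = f.coeff 1 * g.coeff 0 - f.coeff 0 * g.coeff 1 := by
  unfold Polynomial.resultant Polynomial.sylvester
  rw [Matrix.det_fin_two]
  simp [Fin.addCases]
  ring

/-- the linear form in one of the two points -/
noncomputable def lf {r : ℕ} {M : Type} [Field M] (x : Fin (r + 1) → M) (c : Fin 2) :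
    MvPolynomial (Fin 2 × Fin (r + 2)) M :=
  ∑ i : Fin (r + 1), C (x i) * X (c, i.castSucc)

theorem chow_eq (r : ℕ) (M : Type) [Field M] [Algebra ℂ M] (x : Fin (r + 1) → M) :
    Pool.Agent.Work.MP_f82ddf_M5.chow 1 1
      (map (algebraMap ℂ M) (X (Fin.last (r + 1)) : MvPolynomial (Fin (r + 2)) ℂ))
      (Pool.Agent.Work.MP_f82ddf_M5.comb (algebraMap ℂ M) (fun i => X i.castSucc) x) =
    X ((0 : Fin 2), Fin.last (r + 1)) * lf x 1 - X ((1 : Fin 2), Fin.last (r + 1)) * lf x 0 := by
  unfold Pool.Agent.Work.MP_f82ddf_M5.chow Pool.Agent.Work.MP_f82ddf_M5.resAt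
  rw [res11]
  have h1 : Pool.Agent.Work.MP_f82ddf_M5.lineAt (C : M →+* MvPolynomial (Fin 2 × Fin (r + 2)) M)
      (map (algebraMap ℂ M) (X (Fin.last (r + 1)) : MvPolynomial (Fin (r + 2)) ℂ))
      (fun i => X (0, i)) (fun i => X (1, i)) =
      Polynomial.C (X ((0 : Fin 2), Fin.last (r + 1))) * Polynomial.X
        + Polynomial.C (X ((1 : Fin 2), Fin.last (r + 1))) := by
    unfold Pool.Agent.Work.MP_f82ddf_M5.lineAt
    rw [map_X, eval₂_X]
  have h2 : Pool.Agent.Work.MP_f82ddf_M5.lineAt (C : M →+* MvPolynomial (Fin 2 × Fin (r + 2)) M)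
      (Pool.Agent.Work.MP_f82ddf_M5.comb (algebraMap ℂ M) (fun i => X i.castSucc) x)
      (fun i => X (0, i)) (fun i => X (1, i)) =
      Polynomial.C (lf x 0) * Polynomial.X + Polynomial.C (lf x 1) := by
    unfold Pool.Agent.Work.MP_f82ddf_M5.lineAt Pool.Agent.Work.MP_f82ddf_M5.comb lf
    rw [eval₂_sum, map_sum, map_sum, Finset.sum_mul, ← Finset.sum_add_distrib]
    refine Finset.sum_congr rfl fun i _ => ?_
    rw [map_X, eval₂_mul, eval₂_C, eval₂_X]
    simp only [RingHom.coe_comp, Function.comp_apply, map_mul]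
    ring
  rw [h1, h2]
  simp

theorem degreeOf_lf {r : ℕ} {M : Type} [Field M] (x : Fin (r + 1) → M) (c : Fin 2)
    (p : Fin 2 × Fin (r + 2)) : degreeOf p (lf x c) ≤ if p.1 = c then 1 else 0 := by
  classical
  unfold lf
  refine (degreeOf_sum_le p _ _).trans ?_
  refine Finset.sup_le fun i _ => ?_
  refine (degreeOf_C_mul_le _ _ _).trans ?_
  rw [degreeOf_X]
  by_cases h : p = (c, i.castSucc)
  · subst h; simp
  · rw [if_neg h]; exact Nat.zero_le _

theorem degreeOf_term {r : ℕ} {M : Type} [Field M] (x : Fin (r + 1) → M) (c d : Fin 2)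
    (hcd : c ≠ d) (p : Fin 2 × Fin (r + 2)) :
    degreeOf p (X (c, Fin.last (r + 1)) * lf x d) ≤ 1 := by
  classical
  refine (degreeOf_mul_le _ _ _).trans ?_
  have h := degreeOf_lf x d p
  rw [degreeOf_X]
  by_cases h1 : p = (c, Fin.last (r + 1))
  · subst h1
    rw [if_neg (show ((c, Fin.last (r + 1)) : Fin 2 × Fin (r + 2)).1 ≠ d from hcd)] at h
    rw [if_pos rfl]; omega
  · rw [if_neg h1]
    have : (if p.1 = d then 1 else 0) ≤ 1 := by split_ifs <;> simp
    omega

theorem coeff_lf {r : ℕ} {M : Type} [Field M] (x : Fin (r + 1) → M) (c : Fin 2)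
    (i : Fin (r + 1)) :
    coeff (Finsupp.single (c, i.castSucc) 1) (lf x c) = x i := by
  classical
  unfold lf
  rw [coeff_sum, Finset.sum_eq_single i]
  · rw [coeff_C_mul]; simp [coeff_X]
  · intro j _ hj
    rw [coeff_C_mul, coeff_X, if_neg, mul_zero]
    intro h
    have := Finsupp.single_left_injective (one_ne_zero) h
    apply hj
    simpa using this
  · intro h; exact absurd (Finset.mem_univ _) h

end Pool.ThmM0.CH1

namespace Pool.ThmM0

open MvPolynomial Finset CH1

theorem stmt_CH1 : Stmt_CH1 := by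
  intro r M _ _ x
  classical
  rw [chow_eq]
  refine ⟨1, one_ne_zero, fun i => ?_, fun p => ?_⟩
  · rw [coeff_sub, coeff_X_mul, coeff_lf, coeff_X_mul', if_neg, sub_zero, one_mul]
    rw [Finsupp.notMem_support_iff, Finsupp.add_apply, Finsupp.single_apply, Finsupp.single_apply]
    have e1 : ¬ (((0 : Fin 2), Fin.last (r + 1)) = ((1 : Fin 2), Fin.last (r + 1))) := by
      intro h
      exact absurd (Prod.mk.inj h).1 (by decide)
    have e2 : ¬ (((1 : Fin 2), i.castSucc) = ((1 : Fin 2), Fin.last (r + 1))) := by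
      intro h
      exact absurd (Prod.mk.inj h).2 (Fin.castSucc_lt_last i).ne
    rw [if_neg e1, if_neg e2, add_zero]
  · refine (degreeOf_sub_le _ _ _).trans (max_le ?_ ?_)
    · exact degreeOf_term x 0 1 (by decide) p
    · exact degreeOf_term x 1 0 (by decide) p

end Pool.ThmM0
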