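import Pool.Agent.Work.MP_f82ddf_M0.Interface3

set_option autoImplicit false

namespace Pool.ThmM0

open MvPolynomial Finset Pool.Agent.Work.MP_f82ddf_nt Pool.Agent.Work.MP_f82ddf_nt.DQ Pool.ThmM

theorem stmt_CPW : Stmt_CPW := by
  intro ι M _ _ P Psi Fix c k hk hP hdeg hfac
  classical
  have hA : C c * map (algebraMap ℂ M) Fix ≠ 0 := by
    intro h
    rw [h, zero_mul] at hfac
    exact hP hfac
  have hPsik : Psi ^ k ≠ 0 := by
    intro h
    rw [h, mul_zero] at hfac
    exact hP hfac
  have hPsi : Psi ≠ 0 := by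
    intro h
    rw [h, zero_pow (by omega)] at hPsik
    exact hPsik rfl
  have hd : ∀ p, degreeOf p Psi = 0 := by
    intro p
    have h1 := hdeg p
    rw [hfac, degreeOf_mul_eq hA hPsik, degreeOf_pow_eq p Psi k hPsi] at h1
    by_contra hne
    have h2 : 1 ≤ degreeOf p Psi := Nat.one_le_iff_ne_zero.2 hne
    have h3 : k * 1 ≤ k * degreeOf p Psi := Nat.mul_le_mul_left k h2
    omega
  have hC : Psi = C (coeff 0 Psi) := by
    ext m
    rw [coeff_C]
    split_ifs with h
    · rw [h]
    · by_contra hne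
      have hm : m ∈ Psi.support := mem_support_iff.2 hne
      apply h
      ext i
      have h1 := monomial_le_degreeOf i hm
      rw [hd i] at h1
      rw [Finsupp.zero_apply]
      omega
  refine ⟨c * coeff 0 Psi ^ k, fun μ => ⟨coeff μ Fix, ?_⟩⟩
  have h1 : P = C (c * coeff 0 Psi ^ k) * map (algebraMap ℂ M) Fix := by
    have h2 : Psi ^ k = C (coeff 0 Psi ^ k) := by
      rw [C_pow, ← hC]
    rw [hfac, h2, C_mul]
    ring
  rw [h1, coeff_C_mul, coeff_map]

end Pool.ThmM0
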