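import Pool.Agent.Work.MP_f82ddf_M0.Interface

set_option autoImplicit false

namespace Pool.ThmM0

open MvPolynomial Finset Pool.Agent.Work.MP_f82ddf_nt Pool.Agent.Work.MP_f82ddf_nt.DQ Pool.ThmM
open Topology Filter

theorem EXPO_mer {f : ℂ → ℂ} (hf : ∀ z, MeromorphicAt f z) (z : ℂ) :
    MeromorphicAt (fun z => f (Complex.exp z)) z :=
  (hf (Complex.exp z)).comp_analyticAt (Complex.differentiable_exp.analyticAt z)

theorem EXPO_wd {f g : ℂ → ℂ} (hf : ∀ z, MeromorphicAt f z) (hg : ∀ z, MeromorphicAt g z)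
    (h : Mer.mk f hf = Mer.mk g hg) :
    Mer.mk (fun z => f (Complex.exp z)) (EXPO_mer hf)
      = Mer.mk (fun z => g (Complex.exp z)) (EXPO_mer hg) := by
  rw [Mer.mk_eq_mk] at h ⊢
  intro z₀
  have ht : Tendsto Complex.exp (𝓝[≠] z₀) (𝓝[≠] Complex.exp z₀) :=
    (Complex.hasDerivAt_exp z₀).tendsto_nhdsNE (Complex.exp_ne_zero z₀)
  exact ht.eventually (h (Complex.exp z₀))

/-- Composition with the exponential function. -/
noncomputable def EXPO_fun (x : Mer) : Mer :=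
  Mer.mk (fun z => (Mer.exists_mk x).choose (Complex.exp z))
    (EXPO_mer (Mer.exists_mk x).choose_spec.choose)

theorem EXPO_fun_mk (f : ℂ → ℂ) (hf : ∀ z, MeromorphicAt f z) :
    EXPO_fun (Mer.mk f hf) = Mer.mk (fun z => f (Complex.exp z)) (EXPO_mer hf) := by
  unfold EXPO_fun
  exact EXPO_wd _ _ (Mer.exists_mk (Mer.mk f hf)).choose_spec.choose_spec.symm

/-- Composition with the exponential function as a ring homomorphism. -/
noncomputable def EXPO_hom : Mer →+* Mer where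
  toFun := EXPO_fun
  map_one' := by
    have h1 : (1 : Mer) = algebraMap ℂ Mer 1 := (map_one _).symm
    rw [h1, Mer.algebraMap_eq, EXPO_fun_mk]
  map_mul' x y := by
    obtain ⟨f, hf, rfl⟩ := Mer.exists_mk x
    obtain ⟨g, hg, rfl⟩ := Mer.exists_mk y
    rw [Mer.mk_mul, EXPO_fun_mk, EXPO_fun_mk, EXPO_fun_mk, Mer.mk_mul]
  map_zero' := by
    rw [Mer.zero_eq, EXPO_fun_mk]
  map_add' x y := by
    obtain ⟨f, hf, rfl⟩ := Mer.exists_mk x
    obtain ⟨g, hg, rfl⟩ := Mer.exists_mk y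
    rw [Mer.mk_add, EXPO_fun_mk, EXPO_fun_mk, EXPO_fun_mk, Mer.mk_add]

theorem stmt_EXPO : Stmt_EXPO := by
  refine ⟨{ EXPO_hom with commutes' := ?_ }, ?_⟩
  · intro c
    change EXPO_fun (algebraMap ℂ Mer c) = _
    rw [Mer.algebraMap_eq, EXPO_fun_mk]
  · intro x
    obtain ⟨f, hf, rfl⟩ := Mer.exists_mk x
    refine ⟨fun z => f (Complex.exp z), EXPO_mer hf, EXPO_fun_mk f hf, fun z => ?_⟩
    simp only [Complex.exp_periodic z]

end Pool.ThmM0
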