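import Pool.Agent.Work.MP_f82ddf_M0.Interface3

set_option autoImplicit false

namespace Pool.ThmM0

open MvPolynomial Finset Pool.Agent.Work.MP_f82ddf_nt Pool.Agent.Work.MP_f82ddf_nt.DQ Pool.ThmM
open Topology Filter

/-- FIN3 -/
theorem stmt_FIN3 (h1 : Stmt_GEN) : Stmt_FIN3 := by
  intro n
  obtain ⟨D, hD⟩ := h1 n
  refine ⟨D, fun r k hk K _ _ a ha l hl hl2 σ => ?_⟩
  by_contra hX
  have hS : ∀ F ∈ diag k a, ∃ e, F.IsHomogeneous e := by
    rintro F ⟨i, rfl⟩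
    refine ⟨k, IsHomogeneous.sum _ _ _ fun j _ => ?_⟩
    have h3 := (isHomogeneous_C (Fin (n + r + 1)) (a i j)).mul
      ((isHomogeneous_X K j).pow k)
    simpa using h3
  obtain ⟨f, hf, hfX, hab⟩ := exists_entire_curve hS σ hX
  obtain ⟨φ, hφ, i₀, hi₀, hF, hrep, hcon⟩ := exists_mer_of_curve hS σ f hf hfX
  obtain ⟨j, hj⟩ := hcon hab
  have h2 := hD r k hk K a ha l hl hl2 σ (fun j => Mer.mk (φ j) (hφ j)) (by
      intro i
      have h4 := hF _ ⟨i, rfl⟩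
      rw [eval₂_sum] at h4
      rw [← h4]
      refine Finset.sum_congr rfl fun j _ => ?_
      rw [eval₂_mul, eval₂_C, eval₂_pow, eval₂_X]
      rfl) i₀ j (by
      intro h0
      rw [hi₀] at h0
      exact one_ne_zero h0)
  obtain ⟨z, hz⟩ := h2
  rw [hi₀, mul_one] at hz
  exact hj z hz

end Pool.ThmM0
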