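import Pool.Agent.Work.MP_f82ddf_M0.Interface3

/-!
# Theorem M, part P0, block GEN
-/

set_option autoImplicit false

namespace Pool.ThmM0

open MvPolynomial Finset Pool.Agent.Work.MP_f82ddf_nt Pool.Agent.Work.MP_f82ddf_nt.DQ Pool.ThmM

namespace GEN

private lemma hom_smul {σ : Type} {n : ℕ} {p : MvPolynomial σ ℂ} (hp : p.IsHomogeneous n)
    (c : ℂ) (t : σ → ℂ) : eval (c • t) p = c ^ n * eval t p := by
  rw [eval_eq, eval_eq, Finset.mul_sum]
  refine Finset.sum_congr rfl fun s hs => ?_
  have h1 : s.degree = n := by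
    by_contra h
    exact (mem_support_iff.1 hs) (hp.coeff_eq_zero h)
  rw [← h1]
  have h2 : ∏ i ∈ s.support, (c • t) i ^ s i = c ^ s.degree * ∏ i ∈ s.support, t i ^ s i := by
    simp only [Pi.smul_apply, smul_eq_mul, mul_pow, Finset.prod_mul_distrib]
    congr 1
    rw [Finset.prod_pow_eq_pow_sum]
    rfl
  rw [h2]
  ring

/-- a maximal set of pairwise non proportional vectors in a finite family -/
private lemma maxset {ρ M : ℕ} (u : Fin M → Fin (ρ + 1) → ℂ) :
    ∃ S : Finset (Fin (ρ + 1) → ℂ), (∀ v ∈ S, ∀ v' ∈ S, v ≠ v' → NonProp v v') ∧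
      (∀ v ∈ S, ∃ j, u j = v) ∧ (∀ j, u j ≠ 0 → ∃ s ∈ S, ∃ c : ℂ, u j = c • s) := by
  classical
  set V : Finset (Fin (ρ + 1) → ℂ) := (Finset.univ.image u).filter (fun v => v ≠ 0) with hV
  set F : Finset (Finset (Fin (ρ + 1) → ℂ)) :=
    V.powerset.filter (fun S => ∀ v ∈ S, ∀ v' ∈ S, v ≠ v' → NonProp v v') with hF
  have hne : F.Nonempty := ⟨∅, by
    rw [hF, Finset.mem_filter]
    exact ⟨Finset.empty_mem_powerset _, by simp⟩⟩
  obtain ⟨S, hS, hmax⟩ := Finset.exists_max_image F Finset.card hne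
  rw [hF, Finset.mem_filter, Finset.mem_powerset] at hS
  obtain ⟨hSV, hSp⟩ := hS
  have hS0 : ∀ s ∈ S, s ≠ 0 := fun s hs => (Finset.mem_filter.1 (hSV hs)).2
  refine ⟨S, hSp, ?_, ?_⟩
  · intro v hv
    have h1 := (Finset.mem_filter.1 (hSV hv)).1
    obtain ⟨j, -, hj⟩ := Finset.mem_image.1 h1
    exact ⟨j, hj⟩
  intro j hj
  by_contra hcon
  push Not at hcon
  have hnot : u j ∉ S := fun h => hcon (u j) h 1 (one_smul _ _).symm
  have hins : insert (u j) S ∈ F := by
    rw [hF, Finset.mem_filter, Finset.mem_powerset]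
    refine ⟨?_, ?_⟩
    · intro v hv
      rcases Finset.mem_insert.1 hv with rfl | hv
      · rw [hV, Finset.mem_filter]
        exact ⟨Finset.mem_image_of_mem _ (Finset.mem_univ _), hj⟩
      · exact hSV hv
    · have hnp : ∀ s ∈ S, ∀ a b : ℂ, a • u j = b • s → a = 0 ∧ b = 0 := by
        intro s hs a b hab
        have ha : a = 0 := by
          by_contra ha
          apply hcon s hs (a⁻¹ * b)
          rw [mul_smul, ← hab, smul_smul, inv_mul_cancel₀ ha, one_smul]
        refine ⟨ha, ?_⟩
        rw [ha, zero_smul] at hab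
        rcases smul_eq_zero.1 hab.symm with h | h
        · exact h
        · exact absurd h (hS0 s hs)
      intro v hv v' hv' hvv'
      rcases Finset.mem_insert.1 hv with rfl | hv
      · rcases Finset.mem_insert.1 hv' with rfl | hv'
        · exact absurd rfl hvv'
        · exact hnp v' hv'
      · rcases Finset.mem_insert.1 hv' with rfl | hv'
        · intro a b hab
          have := hnp v hv b a hab.symm
          exact ⟨this.2, this.1⟩
        · exact hSp v hv v' hv' hvv'
  have h1 := hmax _ hins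
  rw [Finset.card_insert_of_notMem hnot] at h1
  omega

private lemma indep_coeff {ρ : ℕ} {x : Fin (ρ + 1) → Mer} (hx : LinearIndependent ℂ x)
    (c : Fin (ρ + 1) → ℂ) (h : ∑ i, algebraMap ℂ Mer (c i) * x i = 0) : ∀ i, c i = 0 := by
  rw [Fintype.linearIndependent_iff] at hx
  apply hx c
  rw [← h]
  refine Finset.sum_congr rfl fun i _ => ?_
  rw [Algebra.smul_def]

private lemma alg_const {x : Mer} (hx : IsAlgebraic ℂ x) : ∃ z : ℂ, x = algebraMap ℂ Mer z := by
  have h1 : IsIntegral ℂ x := isAlgebraic_iff_isIntegral.1 hx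
  have h2 := IsAlgClosed.degree_eq_one_of_irreducible ℂ (minpoly.irreducible h1)
  obtain ⟨z, hz⟩ := minpoly.mem_range_of_degree_eq_one ℂ x h2
  exact ⟨z, hz.symm⟩

end GEN

/-- GEN -/
theorem stmt_GEN (hS : Stmt_SPN) (hE : Stmt_EXPO) (hL : Stmt_LGN) (hN : Stmt_NHC)
    (hP : Stmt_PAR) (hU : Stmt_PUL) : Stmt_GEN := by
  classical
  intro n
  let β : ℕ → ℕ := fun ρ => if h : 1 ≤ ρ then (hL ρ n h).choose else 0
  refine ⟨(Finset.range (n + 1)).sup β, fun r k hk K _ _ a ha l hl hno σ y hrel i j hi => ?_⟩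
  obtain ⟨φ, hφ⟩ := hE
  have hinj : Function.Injective φ := φ.toRingHom.injective
  have hk0 : 0 < k := by omega
  obtain ⟨y', hy'⟩ : ∃ y' : Fin (n + r + 1) → Mer, ∀ j, y' j = φ (y j) := ⟨_, fun _ => rfl⟩
  have hrel' : ∀ i, ∑ j, algebraMap ℂ Mer (σ (a i j)) * y' j ^ k = 0 := by
    intro i
    have h1 := congrArg φ (hrel i)
    rw [map_sum, map_zero] at h1
    rw [← h1]
    refine Finset.sum_congr rfl fun j _ => ?_
    rw [map_mul, map_pow, AlgHom.commutes, hy']
  have hyi : y' i ≠ 0 := by
    rw [hy']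
    intro h
    exact hi (hinj (h.trans (map_zero φ).symm))
  have hy0 : y' ≠ 0 := fun h => hyi (congrFun h i)
  obtain ⟨ρ, τ, u, hρ, hlin, hu, hcount⟩ := hS K r n k a hk ha σ y' hy0 hrel'
  rcases Nat.eq_zero_or_pos ρ with h0 | hρ1
  · subst h0
    have h1 : (y' (τ 0)) ^ k ≠ 0 := hlin.ne_zero 0
    have h2 : (y' j / y' i) ^ k = algebraMap ℂ Mer (u j 0 / u i 0) := by
      rw [div_pow, hu j, hu i, Fin.sum_univ_one, Fin.sum_univ_one, mul_div_mul_right _ _ h1,
        map_div₀]
    have h3 : IsAlgebraic ℂ (y' j / y' i) := by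
      apply IsAlgebraic.of_pow hk0
      rw [h2]
      exact isAlgebraic_algebraMap _
    obtain ⟨z, hz⟩ := GEN.alg_const h3
    refine ⟨z, hinj ?_⟩
    rw [map_mul, AlgHom.commutes, ← hy', ← hy']
    rw [div_eq_iff hyi] at hz
    exact hz
  · exfalso
    obtain ⟨S, hS1, hS2, hS3⟩ := GEN.maxset u
    have hx0 : (y' (τ 0)) ^ k ≠ 0 := hlin.ne_zero 0
    have huτ : u (τ 0) ≠ 0 := by
      intro h
      apply hx0
      rw [hu (τ 0), h]
      simp
    obtain ⟨s₀, hs₀, -⟩ := hS3 (τ 0) huτ
    have hmul : ∀ j, ∃ s ∈ S, ∃ c : ℂ, u j = c • s := by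
      intro j
      by_cases hj : u j = 0
      · exact ⟨s₀, hs₀, 0, by rw [hj, zero_smul]⟩
      · exact hS3 j hj
    have hcols : ∀ i c, ∑ j, σ (a i j) * u j c = 0 := by
      intro i
      apply GEN.indep_coeff hlin
      rw [← hrel' i]
      have h1 : ∀ j, algebraMap ℂ Mer (σ (a i j)) * y' j ^ k =
          ∑ l, algebraMap ℂ Mer (σ (a i j) * u j l) * y' (τ l) ^ k := by
        intro j
        rw [hu j, Finset.mul_sum]
        refine Finset.sum_congr rfl fun l _ => ?_
        rw [map_mul, mul_assoc]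
      rw [Finset.sum_congr rfl fun j _ => h1 j, Finset.sum_comm]
      refine Finset.sum_congr rfl fun l _ => ?_
      rw [map_sum, Finset.sum_mul]
    obtain ⟨B, hB⟩ := hP K r n k a hk ha σ l hl ρ u hcols
    have hBli : LinearIndependent ℂ (fun (i : Fin (ρ + 1)) c => B c i) := by
      rw [Fintype.linearIndependent_iff]
      intro g hg
      by_contra hne
      push Not at hne
      have hg0 : g ≠ 0 := by
        intro h
        obtain ⟨i, hi⟩ := hne
        exact hi (congrFun h i)
      have h1 := hcount g hg0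
      have h2 : (Finset.univ.filter fun j => ∑ i, g i * u j i = 0) = Finset.univ := by
        rw [Finset.filter_eq_self]
        intro j _
        have h3 : ∀ i, g i * u j i = ∑ c, σ (l j c) * (g i * B c i) := by
          intro i
          rw [hB j i, Finset.mul_sum]
          refine Finset.sum_congr rfl fun c _ => ?_
          ring
        rw [Finset.sum_congr rfl fun i _ => h3 i, Finset.sum_comm]
        apply Finset.sum_eq_zero
        intro c _
        rw [← Finset.mul_sum]
        have h4 := congrFun hg c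
        rw [Finset.sum_apply] at h4
        have h5 : ∑ i, g i * B c i = 0 := h4
        rw [h5, mul_zero]
      rw [h2, Finset.card_univ, Fintype.card_fin] at h1
      omega
    have hno' := hN K ℂ σ (n + r + 1) n ((Finset.range (n + 1)).sup β) l hno
    have hno2 := hU (n + r + 1) n ρ _ _ B hno' hBli
    have hno3 : NoHypersurface ((Finset.range (n + 1)).sup β) u := by
      have e : (fun j i => ∑ c, σ (l j c) * B c i) = u := by
        funext j i
        exact (hB j i).symm
      rw [← e]
      exact hno2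
    have hβ : (hL ρ n hρ1).choose ≤ (Finset.range (n + 1)).sup β := by
      have h1 : β ρ ≤ (Finset.range (n + 1)).sup β :=
        Finset.le_sup (f := β) (Finset.mem_range.2 (by omega))
      have h2 : β ρ = (hL ρ n hρ1).choose := dif_pos hρ1
      rw [← h2]
      exact h1
    refine (hL ρ n hρ1).choose_spec S hS1 ?_ ?_ k (fun i => y' (τ i) ^ k) hk hlin ?_ ?_
    · intro v hv
      refine le_trans ?_ (hcount v hv)
      refine (Finset.card_le_card ?_).trans
        (Finset.card_image_le (s := Finset.univ.filter fun j => ∑ i, v i * u j i = 0) (f := u))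
      intro w hw
      rw [Finset.mem_filter] at hw
      obtain ⟨j, hj⟩ := hS2 w hw.1
      rw [Finset.mem_image]
      refine ⟨j, ?_, hj⟩
      rw [Finset.mem_filter]
      refine ⟨Finset.mem_univ _, ?_⟩
      rw [hj]
      exact hw.2
    · intro e G he hG hG0
      by_contra hcon
      push Not at hcon
      obtain ⟨j, hj⟩ := hno3 e G (he.trans hβ) hG hG0
      apply hj
      obtain ⟨s, hs, c, hc⟩ := hmul j
      rw [hc, GEN.hom_smul hG, hcon s hs, mul_zero]
    · intro i
      show Per (y' (τ i) ^ k)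
      rw [hy', ← map_pow]
      exact hφ _
    · intro v hv
      obtain ⟨j, rfl⟩ := hS2 v hv
      exact ⟨y' j, (hu j).symm⟩

end Pool.ThmM0
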