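import Pool.Agent.Work.MP_f82ddf_M0.Interface

set_option autoImplicit false

/-! Block GPZ of THEOREM M, part P0 (helper69). -/

namespace Pool.ThmM0

open Finset

theorem stmt_GPZ (hM : Stmt_MIN) : Stmt_GPZ := by
  classical
  intro K _ _ r n k a hk ha σ u hu heq
  by_contra hcon
  push Not at hcon
  have hsum : (univ.filter fun j : Fin (n + r + 1) => u j = 0).card +
      (univ.filter fun j : Fin (n + r + 1) => ¬ u j = 0).card = n + r + 1 := by
    rw [Finset.card_filter_add_card_filter_not, Finset.card_univ, Fintype.card_fin]
  have hS : (univ.filter fun j : Fin (n + r + 1) => ¬ u j = 0).card ≤ r := by omega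
  obtain ⟨T, hST, hT⟩ := Finset.exists_superset_card_eq hS
    (by rw [Fintype.card_fin]; omega)
  have hout : ∀ j, j ∉ T → u j = 0 := by
    intro j hj
    by_contra h
    exact hj (hST (mem_filter.2 ⟨mem_univ _, h⟩))
  let J := T.orderEmbOfFin hT
  have hdet := hM K r (n + r) k a hk ha J J.injective
  have hdet' : ((Matrix.of fun i l => a i (J l)).map σ).det ≠ 0 := by
    have h1 : ((Matrix.of fun i l => a i (J l)).map σ).det =
        σ ((Matrix.of fun i l => a i (J l)).det) := by
      rw [RingHom.map_det, RingHom.mapMatrix_apply]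
    rw [h1]
    exact (map_ne_zero σ).2 hdet
  have hzero : (fun l => u (J l)) = 0 := by
    apply Matrix.eq_zero_of_mulVec_eq_zero hdet'
    funext i
    simp only [Matrix.mulVec, dotProduct, Matrix.map_apply, Matrix.of_apply, Pi.zero_apply]
    rw [← heq i]
    have h2 : ∑ j ∈ T, σ (a i j) * u j = ∑ j, σ (a i j) * u j := by
      apply Finset.sum_subset (subset_univ T)
      intro j _ hj
      rw [hout j hj, mul_zero]
    rw [← h2]
    have h3 : T = univ.image J := by
      rw [← Finset.coe_inj, Finset.coe_image, Finset.coe_univ, Set.image_univ]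
      exact (Finset.range_orderEmbOfFin T hT).symm
    conv_rhs => rw [h3]
    rw [Finset.sum_image]
    intro x _ y _ hxy
    exact J.injective hxy
  apply hu
  funext j
  by_cases hj : j ∈ T
  · have h4 : j ∈ Set.range J := by
      rw [Finset.range_orderEmbOfFin T hT]
      exact hj
    obtain ⟨l, rfl⟩ := h4
    exact congrFun hzero l
  · exact hout j hj

end Pool.ThmM0
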