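import Pool.Agent.Work.MP_f82ddf_M0.Interface

set_option autoImplicit false

namespace Pool.ThmM0

open MvPolynomial Finset Pool.Agent.Work.MP_f82ddf_nt Pool.Agent.Work.MP_f82ddf_nt.DQ Pool.ThmM

/-- The homogenisation with the variable `X 0`. -/
noncomputable def HOMR_h {m : ℕ} (e : ℕ) (G : MvPolynomial (Fin m) ℂ) :
    MvPolynomial (Fin (m + 1)) ℂ :=
  ∑ μ ∈ G.support, monomial (Finsupp.cons (e - μ.degree) μ) (coeff μ G)

theorem HOMR_degree_cons {m : ℕ} (a : ℕ) (μ : Fin m →₀ ℕ) :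
    (Finsupp.cons a μ).degree = a + μ.degree := by
  rw [Finsupp.degree_eq_sum, Finsupp.degree_eq_sum, Fin.sum_univ_succ]
  simp

theorem HOMR_cons_inj {m : ℕ} {a b : ℕ} {μ ν : Fin m →₀ ℕ}
    (h : Finsupp.cons a μ = Finsupp.cons b ν) : μ = ν := by
  have h1 := congrArg Finsupp.tail h
  simpa using h1

theorem HOMR_coeff {m : ℕ} (e : ℕ) (G : MvPolynomial (Fin m) ℂ) (μ : Fin m →₀ ℕ) :
    coeff (Finsupp.cons (e - μ.degree) μ) (HOMR_h e G) = coeff μ G := by
  unfold HOMR_h
  rw [coeff_sum]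
  by_cases hμ : μ ∈ G.support
  · rw [Finset.sum_eq_single μ]
    · rw [coeff_monomial, if_pos rfl]
    · intro ν _ hν
      rw [coeff_monomial, if_neg]
      intro h
      exact hν (HOMR_cons_inj h)
    · intro h
      exact absurd hμ h
  · rw [notMem_support_iff] at hμ
    rw [hμ]
    refine Finset.sum_eq_zero fun ν hν => ?_
    rw [coeff_monomial, if_neg]
    intro h
    have h1 := HOMR_cons_inj h
    rw [h1] at hν
    rw [mem_support_iff] at hν
    exact hν hμ

theorem stmt_HOMR : Stmt_HOMR := by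
  intro m q hq0 hrel
  rw [algebraicIndependent_iff]
  intro G hG
  by_contra hne
  set e := G.totalDegree with he
  have hP : HOMR_h e G ≠ 0 := by
    intro h
    apply hne
    ext μ
    rw [← HOMR_coeff e G μ, h]
    simp
  have hdeg : ∀ μ ∈ G.support, μ.degree ≤ e := by
    intro μ hμ
    have := le_totalDegree hμ
    rw [Finsupp.degree_eq_sum]
    rwa [Finsupp.sum_fintype _ _ (fun _ => rfl)] at this
  have hhom : (HOMR_h e G).IsHomogeneous e := by
    unfold HOMR_h
    refine IsHomogeneous.sum _ _ _ fun μ hμ => ?_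
    apply isHomogeneous_monomial
    rw [HOMR_degree_cons]
    have := hdeg μ hμ
    omega
  apply hrel e (HOMR_h e G) hP hhom
  unfold HOMR_h
  rw [map_sum]
  have key : ∀ μ ∈ G.support, aeval q (monomial (Finsupp.cons (e - μ.degree) μ) (coeff μ G))
      = q 0 ^ e * (algebraMap ℂ Mer (coeff μ G) * ∏ i, (q i.succ / q 0) ^ μ i) := by
    intro μ hμ
    rw [aeval_monomial, Finsupp.prod_fintype _ _ (fun i => pow_zero _), Fin.prod_univ_succ]
    simp only [Finsupp.cons_zero, Finsupp.cons_succ, div_pow]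
    rw [Finset.prod_div_distrib, Finset.prod_pow_eq_pow_sum]
    have h1 : ∑ i, μ i = μ.degree := (Finsupp.degree_eq_sum μ).symm
    rw [h1]
    have h2 : q 0 ^ e = q 0 ^ (e - μ.degree) * q 0 ^ μ.degree := by
      rw [← pow_add]
      congr 1
      have := hdeg μ hμ
      omega
    rw [h2]
    have h3 : q 0 ^ μ.degree ≠ 0 := pow_ne_zero _ hq0
    field_simp
  rw [Finset.sum_congr rfl key, ← Finset.mul_sum]
  have hG' : ∑ μ ∈ G.support, algebraMap ℂ Mer (coeff μ G) * ∏ i, (q i.succ / q 0) ^ μ i = 0 := by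
    rw [← hG, aeval_def, eval₂_eq']
  rw [hG', mul_zero]

end Pool.ThmM0
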