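import Pool.Agent.Work.MP_f82ddf_M0.Interface

set_option autoImplicit false

namespace Pool.ThmM0

open MvPolynomial Finset Pool.Agent.Work.MP_f82ddf_nt Pool.Agent.Work.MP_f82ddf_nt.DQ Pool.ThmM
open Topology Filter

/-- MREL -/
theorem stmt_MREL : Stmt_MREL := by
  intro N f φ hφ hf hrep m e s P hP hrel z₀
  obtain ⟨g, hg⟩ := hf z₀ (Set.mem_univ z₀)
  have hg' : IsLift f g z₀ := hg
  have hQ : (rename s P).IsHomogeneous e := hP.rename_isHomogeneous
  have h0 : eval₂ ((algebraMap ℂ Mer).comp (RingHom.id ℂ)) (fun j => Mer.mk (φ j) (hφ j))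
      (rename s P) = 0 := by
    rw [eval₂_rename, RingHom.comp_id]
    exact hrel
  have h1 := (mer_eval₂_eq_zero (RingHom.id ℂ) φ hφ (rename s P)).1 h0 z₀
  have h2 : ∀ᶠ z in 𝓝[≠] z₀, eval₂ (RingHom.id ℂ) (g z) (rename s P) = 0 := by
    filter_upwards [h1, hrep z₀, nhdsWithin_le_nhds hg'.2] with z a1 a2 a3
    obtain ⟨c, hc, a2⟩ := a2
    obtain ⟨b1, b2⟩ := a3
    obtain ⟨d, hd⟩ := Projectivization.exists_smul_eq_mk_rep ℂ (g z) b1
    have h3 : g z = ((d : ℂ)⁻¹ * c) • (fun j => φ j z) := by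
      funext j
      have h4 := a2 j
      rw [b2, ← hd] at h4
      have h5 : (d : ℂ) * g z j = c * φ j z := h4
      have h6 : (d : ℂ) ≠ 0 := d.ne_zero
      show g z j = (d : ℂ)⁻¹ * c * φ j z
      rw [mul_assoc, ← h5, inv_mul_cancel_left₀ h6]
    rw [h3, eval₂_smul_hom hQ, a1, mul_zero]
  have h3 : AnalyticAt ℂ (fun z => eval₂ (RingHom.id ℂ) (g z) (rename s P)) z₀ := by
    have h3 : (fun z => eval₂ (RingHom.id ℂ) (g z) (rename s P)) =
        fun z => ∑ m ∈ (rename s P).support, (RingHom.id ℂ) (coeff m (rename s P)) *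
          ∏ i, g z i ^ m i := by
      funext z
      rw [eval₂_eq']
    rw [h3]
    refine Finset.analyticAt_fun_sum _ fun m _ => ?_
    refine AnalyticAt.mul analyticAt_const ?_
    refine Finset.analyticAt_fun_prod _ fun i _ => ?_
    exact ((analyticAt_pi_iff.1 hg'.1) i).pow _
  have h4 : eval₂ (RingHom.id ℂ) (g z₀) (rename s P) = 0 :=
    (eq_of_punctured h3 analyticAt_const h2).self_of_nhds
  obtain ⟨d, hd⟩ := Projectivization.exists_smul_eq_mk_rep ℂ (g z₀) hg'.ne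
  have h5 : (f z₀).rep = (d : ℂ) • g z₀ := by
    rw [hg'.eq, ← hd]
    rfl
  have h6 : eval₂ (RingHom.id ℂ) (f z₀).rep (rename s P) = 0 := by
    rw [h5, eval₂_smul_hom hQ, h4, mul_zero]
  rw [eval₂_rename] at h6
  exact h6

end Pool.ThmM0
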