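import Pool.Agent.Work.MP_f82ddf_M0.Interface3

set_option autoImplicit false

/-! # Block NHC: `NoHypersurface` passes to a field extension -/

namespace Pool.ThmM0

open MvPolynomial Finset

theorem stmt_NHC : Stmt_NHC := by
  intro K L _ _ σ m n D l hl e G he hG hG0
  letI : Algebra K L := σ.toAlgebra
  have hσ : ∀ a : K, algebraMap K L a = σ a := fun a => rfl
  let b := Module.Free.chooseBasis K L
  obtain ⟨μ₀, hμ₀⟩ : ∃ μ, coeff μ G ≠ 0 := by
    by_contra hc
    push Not at hc
    exact hG0 (MvPolynomial.ext _ _ (by intro μ; rw [hc μ, coeff_zero]))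
  obtain ⟨i, hi⟩ : ∃ i, b.coord i (coeff μ₀ G) ≠ 0 := by
    by_contra hc
    push Not at hc
    exact hμ₀ (b.ext_elem (by intro i; simpa using hc i))
  let H : MvPolynomial (Fin (n + 1)) K :=
    ∑ μ ∈ G.support, monomial μ (b.coord i (coeff μ G))
  have hHc : ∀ μ, coeff μ H = b.coord i (coeff μ G) := by
    intro μ
    simp only [H, coeff_sum, coeff_monomial]
    rw [Finset.sum_ite_eq' G.support μ]
    split_ifs with h
    · rfl
    · rw [notMem_support_iff.mp h, map_zero]
  have hHe : H.IsHomogeneous e := by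
    intro μ hμ
    apply hG
    intro hc
    apply hμ
    rw [hHc, hc, map_zero]
  have hH0 : H ≠ 0 := by
    intro h
    apply hi
    rw [← hHc, h, coeff_zero]
  obtain ⟨j, hj⟩ := hl e H he hHe hH0
  refine ⟨j, ?_⟩
  intro hc
  apply hj
  have h1 : eval (l j) H = b.coord i (eval (fun c => σ (l j c)) G) := by
    rw [eval_eq' (fun c => σ (l j c)) G]
    simp only [H, map_sum]
    refine Finset.sum_congr rfl fun μ _ => ?_
    rw [eval_monomial]
    have h2 : coeff μ G * ∏ c, σ (l j c) ^ μ c = (∏ c, l j c ^ μ c) • coeff μ G := by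
      rw [Algebra.smul_def, hσ, map_prod, mul_comm]
      simp only [map_pow]
    rw [h2, LinearMap.map_smul, smul_eq_mul, mul_comm, Finsupp.prod_fintype _ _ (by simp)]
  rw [h1, hc, map_zero]

end Pool.ThmM0
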