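import Pool.Agent.Work.MP_f82ddf_M0.Interface

set_option autoImplicit false

namespace Pool.ThmM0

open MvPolynomial Finset Pool.Agent.Work.MP_f82ddf_nt Pool.Agent.Work.MP_f82ddf_nt.DQ Pool.ThmM

/-- ONE -/
theorem stmt_ONE (hC : Stmt_CDIM) (hS : Stmt_SPN) (hL : Stmt_SEL) (hE : Stmt_EXPO)
    (hH : Stmt_HOMR) (hT : Stmt_TRD) : Stmt_ONE := by
  classical
  intro n
  choose N₁ hN₁ using hC
  refine ⟨n + n * (Finset.range (n + 1)).sup (fun ρ => N₁ ρ n) + 1,
    fun r k hr hk K _ _ a ha σ y hy hrel m s hm => ?_⟩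
  obtain ⟨φ, hφ⟩ := hE
  by_contra hcon
  push Not at hcon
  have hinj : Function.Injective φ := φ.toRingHom.injective
  have hk0 : 0 < k := by omega
  obtain ⟨y', hy'⟩ : ∃ y' : Fin (n + r + 1) → Mer, ∀ j, y' j = φ (y j) := ⟨_, fun _ => rfl⟩
  have hrel' : ∀ i, ∑ j, algebraMap ℂ Mer (σ (a i j)) * y' j ^ k = 0 := by
    intro i
    have h1 := congrArg φ (hrel i)
    rw [map_sum, map_zero] at h1
    rw [← h1]
    refine Finset.sum_congr rfl fun j _ => ?_
    rw [map_mul, map_pow, AlgHom.commutes, hy']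
  have hcon' : ∀ (e : ℕ) (P : MvPolynomial (Fin (m + 2)) ℂ), P ≠ 0 → P.IsHomogeneous e →
      aeval (fun i => y' (s i)) P ≠ 0 := by
    intro e P hP hPe h
    apply hcon e P hP hPe
    apply hinj
    rw [map_zero, ← h, MvPolynomial.comp_aeval_apply]
    congr 2
    funext i
    exact (hy' _).symm
  have hys : ∀ i, y' (s i) ≠ 0 := by
    intro i h
    apply hcon' 1 (X i) (X_ne_zero i) (isHomogeneous_X ℂ i)
    rw [aeval_X, h]
  have hy0 : y' ≠ 0 := fun h => hys 0 (by rw [h]; rfl)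
  have hp := hH m (fun i => y' (s i)) (hys 0) hcon'
  obtain ⟨ρ, τ, u, hρ, hlin, hu, hcount⟩ := hS K r n k a hk ha σ y' hy0 hrel'
  rcases Nat.eq_zero_or_pos ρ with h0 | hρ1
  · subst h0
    have h1 : (y' (τ 0)) ^ k ≠ 0 := hlin.ne_zero 0
    have h2 : (y' (s (Fin.succ 0)) / y' (s 0)) ^ k =
        algebraMap ℂ Mer (u (s (Fin.succ 0)) 0 / u (s 0) 0) := by
      rw [div_pow, hu, hu (s 0), Fin.sum_univ_one, Fin.sum_univ_one, mul_div_mul_right _ _ h1,
        map_div₀]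
    have h3 := hp.transcendental 0
    apply h3
    apply IsAlgebraic.of_pow hk0
    rw [h2]
    exact isAlgebraic_algebraMap _
  · obtain ⟨S, hS1, hS2, hS3, hS4⟩ := hL ρ n (n + r + 1) (N₁ ρ n) u hρ1 hcount (by
      have h1 : N₁ ρ n ≤ (Finset.range (n + 1)).sup (fun ρ => N₁ ρ n) :=
        Finset.le_sup (f := fun ρ => N₁ ρ n) (Finset.mem_range.2 (by omega))
      have h2 := Nat.mul_le_mul_left n h1
      omega)
    have hx0 : (y' (τ 0)) ^ k ≠ 0 := hlin.ne_zero 0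
    obtain ⟨ι, hι⟩ := hT (ρ + 1) (m + 1) k (fun i => y' (τ i) ^ k / y' (τ 0) ^ k)
      (fun j => y' (s j.succ) / y' (s 0)) hk0 hp (by
      intro j
      have hmem : ∀ l : Fin (n + r + 1), y' l ^ k / y' (τ 0) ^ k ∈
          IntermediateField.adjoin ℂ (Set.range fun i => y' (τ i) ^ k / y' (τ 0) ^ k) := by
        intro l
        rw [hu l, Finset.sum_div]
        refine sum_mem fun i _ => ?_
        rw [mul_div_assoc]
        exact mul_mem (algebraMap_mem _ _) (IntermediateField.subset_adjoin _ _ ⟨i, rfl⟩)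
      have h1 : (y' (s j.succ) / y' (s 0)) ^ k =
          (y' (s j.succ) ^ k / y' (τ 0) ^ k) / (y' (s 0) ^ k / y' (τ 0) ^ k) := by
        rw [div_pow, div_div_div_cancel_right₀ hx0]
      show (y' (s j.succ) / y' (s 0)) ^ k ∈ _
      rw [h1]
      exact div_mem (hmem _) (hmem _))
    have hfin := hN₁ ρ n S hS1 hS2 hS4 k (fun i => y' (τ i) ^ k) hk hlin (by
      intro i
      show Per (y' (τ i) ^ k)
      rw [hy', ← map_pow]
      exact hφ _) (by
      intro v hv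
      obtain ⟨j, rfl⟩ := hS3 v hv
      exact ⟨y' j, (hu j).symm⟩) (m + 1) 0 ι hι
    omega

end Pool.ThmM0
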