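import Pool.Agent.Work.MP_f82ddf_M0.Interface3

/-! # PAR (helper29): the nodes are linear images of the columns -/

set_option autoImplicit false

namespace Pool.ThmM0

open MvPolynomial Finset Pool.Agent.Work.MP_f82ddf_nt Pool.Agent.Work.MP_f82ddf_nt.DQ Pool.ThmM

theorem PAR_indep {K L : Type} [Field K] [Field L] (σ : K →+* L) {N m : ℕ}
    (l : Fin N → Fin m → K) (h : LinearIndependent K (fun (c : Fin m) j => l j c)) :
    LinearIndependent L (fun (c : Fin m) j => σ (l j c)) := by
  classical
  set M : Matrix (Fin N) (Fin m) K := Matrix.of l with hM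
  have h1 : Function.Injective M.mulVec := Matrix.mulVec_injective_iff.2 h
  have h2 : LinearMap.ker (Matrix.toLin' M) = ⊥ := LinearMap.ker_eq_bot.2 h1
  obtain ⟨g, hg⟩ := LinearMap.exists_leftInverse_of_injective (Matrix.toLin' M) h2
  have h3 : LinearMap.toMatrix' g * M = 1 := by
    rw [← LinearMap.toMatrix'_toLin' M, ← LinearMap.toMatrix'_comp, hg, LinearMap.toMatrix'_id]
  have h4 : (LinearMap.toMatrix' g).map σ * M.map σ = 1 := by
    rw [← Matrix.map_mul, h3, Matrix.map_one _ (map_zero σ) (map_one σ)]
  have h5 : Function.Injective (M.map σ).mulVec := by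
    intro x y hxy
    have h6 := congrArg ((LinearMap.toMatrix' g).map σ).mulVec hxy
    rwa [Matrix.mulVec_mulVec, Matrix.mulVec_mulVec, h4, Matrix.one_mulVec,
      Matrix.one_mulVec] at h6
  exact Matrix.mulVec_injective_iff.1 h5

theorem stmt_PAR : Stmt_GPZ → Stmt_PAR := by
  classical
  intro hG K _ _ r n k a hk hsm σ l hl ρ u hu
  -- the space of solutions
  let W : Submodule ℂ (Fin (n + r + 1) → ℂ) :=
    { carrier := {w | ∀ i, ∑ j, σ (a i j) * w j = 0}
      add_mem' := by
        intro x y hx hy i
        have : ∑ j, σ (a i j) * (x + y) j =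
            ∑ j, σ (a i j) * x j + ∑ j, σ (a i j) * y j := by
          rw [← Finset.sum_add_distrib]
          exact Finset.sum_congr rfl fun j _ => by rw [Pi.add_apply, mul_add]
        rw [this, hx i, hy i, add_zero]
      zero_mem' := by
        intro i
        simp
      smul_mem' := by
        intro c x hx i
        have : ∑ j, σ (a i j) * (c • x) j = c * ∑ j, σ (a i j) * x j := by
          rw [Finset.mul_sum]
          exact Finset.sum_congr rfl fun j _ => by rw [Pi.smul_apply, smul_eq_mul]; ring
        rw [this, hx i, mul_zero] }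
  have hWmem : ∀ w, w ∈ W ↔ ∀ i, ∑ j, σ (a i j) * w j = 0 := fun w => Iff.rfl
  -- its dimension
  have hlt : n + 1 ≤ n + r + 1 := by omega
  let π : W →ₗ[ℂ] (Fin (n + 1) → ℂ) :=
    { toFun := fun w i => (w : Fin (n + r + 1) → ℂ) (Fin.castLE hlt i)
      map_add' := fun _ _ => rfl
      map_smul' := fun _ _ => rfl }
  have hπ : Function.Injective π := by
    rw [← LinearMap.ker_eq_bot, LinearMap.ker_eq_bot']
    rintro ⟨w, hw⟩ h0
    by_contra hne
    have hw0 : w ≠ 0 := fun h => hne (Subtype.ext h)
    have h1 := hG K r n k a hk hsm σ w hw0 ((hWmem w).1 hw)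
    have h2 : (Finset.univ.map (Fin.castLEEmb hlt)) ⊆ Finset.univ.filter fun j => w j = 0 := by
      intro j hj
      rw [Finset.mem_map] at hj
      obtain ⟨i, -, rfl⟩ := hj
      rw [Finset.mem_filter]
      exact ⟨Finset.mem_univ _, congrFun h0 i⟩
    have h3 := Finset.card_le_card h2
    rw [Finset.card_map, Finset.card_univ, Fintype.card_fin] at h3
    omega
  have hfin : Module.finrank ℂ W ≤ n + 1 := by
    have := LinearMap.finrank_le_finrank_of_injective hπ
    rwa [Module.finrank_fin_fun] at this
  -- the span of the columns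
  set v : Fin (n + 1) → (Fin (n + r + 1) → ℂ) := fun c j => σ (l j c) with hv
  have hvli : LinearIndependent ℂ v := PAR_indep σ l hl.2
  have hvW : Submodule.span ℂ (Set.range v) ≤ W := by
    rw [Submodule.span_le]
    rintro _ ⟨c, rfl⟩
    refine (hWmem _).2 fun i => ?_
    have h1 := congrArg σ (hl.1 i c)
    rw [map_sum, map_zero] at h1
    rw [← h1]
    exact Finset.sum_congr rfl fun j _ => (map_mul σ _ _).symm
  have hspan : Submodule.span ℂ (Set.range v) = W := by
    apply Submodule.eq_of_le_of_finrank_le hvW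
    rw [finrank_span_eq_card hvli, Fintype.card_fin]
    exact hfin
  have hcol : ∀ i : Fin (ρ + 1), ∃ c : Fin (n + 1) → ℂ, ∑ t, c t • v t = fun j => u j i := by
    intro i
    have h1 : (fun j => u j i) ∈ W := (hWmem _).2 fun i' => hu i' i
    rw [← hspan] at h1
    exact (Submodule.mem_span_range_iff_exists_fun ℂ).1 h1
  choose B hB using hcol
  refine ⟨Matrix.of fun c i => B i c, ?_⟩
  intro j i
  have h1 := congrFun (hB i) j
  rw [← h1, Finset.sum_apply]
  refine Finset.sum_congr rfl fun c _ => ?_
  rw [Pi.smul_apply, smul_eq_mul, mul_comm]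
  rfl

end Pool.ThmM0
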