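import Pool.Agent.Work.MP_f82ddf_M0.Interface3

set_option autoImplicit false

/-! # PUL: pullback of forms under a linear map -/

namespace Pool.ThmM0

open MvPolynomial Finset

theorem PUL_surj {n ρ : ℕ} (B : Matrix (Fin (n + 1)) (Fin (ρ + 1)) ℂ)
    (h : LinearIndependent ℂ (fun (i : Fin (ρ + 1)) c => B c i)) (p : Fin (ρ + 1) → ℂ) :
    ∃ q : Fin (n + 1) → ℂ, ∀ i, ∑ c, q c * B c i = p i := by
  have h1 : Function.Injective B.mulVec := by
    rw [Matrix.mulVec_injective_iff]
    exact h
  have h2 : LinearMap.ker B.mulVecLin = ⊥ := LinearMap.ker_eq_bot.2 h1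
  obtain ⟨g, hg⟩ := LinearMap.exists_leftInverse_of_injective B.mulVecLin h2
  have h3 : LinearMap.toMatrix' g * B = 1 := by
    have h4 := congrArg LinearMap.toMatrix' hg
    rw [LinearMap.toMatrix'_comp, LinearMap.toMatrix'_id, show B.mulVecLin = Matrix.toLin' B from rfl,
      LinearMap.toMatrix'_toLin'] at h4
    exact h4
  refine ⟨Matrix.vecMul p (LinearMap.toMatrix' g), fun i => ?_⟩
  have h5 : Matrix.vecMul (Matrix.vecMul p (LinearMap.toMatrix' g)) B = p := by
    rw [Matrix.vecMul_vecMul, h3, Matrix.vecMul_one]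
  exact congrFun h5 i

theorem stmt_PUL : Stmt_PUL := by
  intro m n ρ D l B hl hB e G he hG hG0
  by_contra hcon
  push Not at hcon
  have hev : ∀ q : Fin (n + 1) → ℂ,
      eval q (aeval (fun i => ∑ c, C (B c i) * X c : Fin (ρ + 1) →
        MvPolynomial (Fin (n + 1)) ℂ) G) = eval (fun i => ∑ c, q c * B c i) G := by
    intro q
    have h1 : (eval q).comp ((aeval (fun i => ∑ c, C (B c i) * X c : Fin (ρ + 1) →
        MvPolynomial (Fin (n + 1)) ℂ)) : MvPolynomial (Fin (ρ + 1)) ℂ →ₐ[ℂ] _).toRingHom =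
        eval (fun i => ∑ c, q c * B c i) := by
      apply ringHom_ext
      · intro r
        simp
      · intro i
        simp [mul_comm]
    exact congrArg (fun f => f G) h1
  have hhom : (aeval (fun i => ∑ c, C (B c i) * X c : Fin (ρ + 1) →
        MvPolynomial (Fin (n + 1)) ℂ) G).IsHomogeneous e := by
    have h1 := hG.aeval (fun i => ∑ c, C (B c i) * X c : Fin (ρ + 1) →
        MvPolynomial (Fin (n + 1)) ℂ) (n := 1) (fun i => by
          apply IsHomogeneous.sum
          intro c _
          have h2 := (isHomogeneous_C (Fin (n + 1)) (B c i)).mul (isHomogeneous_X ℂ c)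
          rwa [zero_add] at h2)
    rwa [one_mul] at h1
  have hne : aeval (fun i => ∑ c, C (B c i) * X c : Fin (ρ + 1) →
        MvPolynomial (Fin (n + 1)) ℂ) G ≠ 0 := by
    intro h0
    apply hG0
    apply MvPolynomial.funext
    intro p
    obtain ⟨q, hq⟩ := PUL_surj B hB p
    have h1 := hev q
    rw [h0, map_zero] at h1
    rw [map_zero, h1]
    congr 2
    funext i
    exact (hq i).symm
  obtain ⟨j, hj⟩ := hl e _ he hhom hne
  apply hj
  rw [hev]
  exact hcon j

end Pool.ThmM0
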