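import Pool.Agent.Work.MP_f82ddf_M0.Interface

/-!
# Theorem M, part P0, block SPN
-/

set_option autoImplicit false

namespace Pool.ThmM0

open MvPolynomial Finset Pool.Agent.Work.MP_f82ddf_nt Pool.Agent.Work.MP_f82ddf_nt.DQ Pool.ThmM

namespace SPN

/-- A basis among finitely many vectors, with coordinates. -/
private lemma basis_aux {N : ℕ} (z : Fin N → Mer) (hz : z ≠ 0) :
    ∃ (ρ : ℕ) (τ : Fin (ρ + 1) → Fin N) (u : Fin N → Fin (ρ + 1) → ℂ),
      LinearIndependent ℂ (fun i => z (τ i)) ∧
      ∀ j, z j = ∑ i, algebraMap ℂ Mer (u j i) * z (τ i) := by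
  obtain ⟨κ, a, ha, hspan, hli⟩ := exists_linearIndependent' (K := ℂ) z
  have : Finite κ := Finite.of_injective a ha
  have : Fintype κ := Fintype.ofFinite κ
  have hcard : 0 < Fintype.card κ := by
    rw [Fintype.card_pos_iff]
    by_contra hne
    rw [not_nonempty_iff] at hne
    apply hz
    funext j
    have h1 : z j ∈ Submodule.span ℂ (Set.range z) := Submodule.subset_span ⟨j, rfl⟩
    rw [← hspan, Set.range_eq_empty (z ∘ a), Submodule.span_empty, Submodule.mem_bot] at h1
    exact h1
  obtain ⟨ρ, hρ⟩ : ∃ ρ, Fintype.card κ = ρ + 1 := ⟨Fintype.card κ - 1, by omega⟩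
  let e : Fin (ρ + 1) ≃ κ := (Fintype.equivFinOfCardEq hρ).symm
  have hrange : Set.range (fun i => z (a (e i))) = Set.range (z ∘ a) := by
    ext x
    constructor
    · rintro ⟨i, rfl⟩
      exact ⟨e i, rfl⟩
    · rintro ⟨c, rfl⟩
      exact ⟨e.symm c, by simp⟩
  have hex : ∀ j, ∃ c : Fin (ρ + 1) → ℂ, ∑ i, c i • z (a (e i)) = z j := by
    intro j
    have h1 : z j ∈ Submodule.span ℂ (Set.range z) := Submodule.subset_span ⟨j, rfl⟩
    rw [← hspan, ← hrange, Submodule.mem_span_range_iff_exists_fun] at h1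
    exact h1
  choose u hu using hex
  refine ⟨ρ, fun i => a (e i), u, ?_, ?_⟩
  · exact hli.comp e e.injective
  · intro j
    rw [← hu j]
    refine Finset.sum_congr rfl fun i _ => ?_
    rw [Algebra.smul_def]

private lemma indep_coeff {ρ : ℕ} {x : Fin (ρ + 1) → Mer} (hx : LinearIndependent ℂ x)
    (c : Fin (ρ + 1) → ℂ) (h : ∑ i, algebraMap ℂ Mer (c i) * x i = 0) : ∀ i, c i = 0 := by
  rw [Fintype.linearIndependent_iff] at hx
  apply hx c
  rw [← h]
  refine Finset.sum_congr rfl fun i _ => ?_
  rw [Algebra.smul_def]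

end SPN

/-- SPN. -/
theorem stmt_SPN : Stmt_GPZ → Stmt_SPN := by
  intro hG K _ _ r n k a hk ha σ y hy heq
  have hz : (fun j => y j ^ k) ≠ 0 := by
    intro h
    apply hy
    funext j
    have h1 : y j ^ k = 0 := congrFun h j
    exact pow_eq_zero_iff (by omega) |>.1 h1
  obtain ⟨ρ, τ, u, hli, hu⟩ := SPN.basis_aux (fun j => y j ^ k) hz
  have huτ : ∀ i l, u (τ i) l = if l = i then 1 else 0 := by
    intro i l
    have h1 := hu (τ i)
    have h2 : ∑ l, algebraMap ℂ Mer (u (τ i) l - if l = i then 1 else 0) * y (τ l) ^ k = 0 := by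
      have h3 : ∀ l, algebraMap ℂ Mer (u (τ i) l - if l = i then 1 else 0) * y (τ l) ^ k
          = algebraMap ℂ Mer (u (τ i) l) * y (τ l) ^ k -
            (if l = i then y (τ l) ^ k else 0) := by
        intro l
        split_ifs with hl
        · rw [map_sub, map_one, sub_mul, one_mul]
        · rw [sub_zero, sub_zero]
      rw [Finset.sum_congr rfl fun l _ => h3 l, Finset.sum_sub_distrib, ← h1,
        Finset.sum_ite_eq' Finset.univ i (fun l => y (τ l) ^ k)]
      simp
    have h4 := SPN.indep_coeff hli _ h2 l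
    exact sub_eq_zero.1 h4
  have hrel : ∀ i l, ∑ j, σ (a i j) * u j l = 0 := by
    intro i
    apply SPN.indep_coeff hli
    rw [← heq i]
    have h1 : ∀ j, algebraMap ℂ Mer (σ (a i j)) * y j ^ k =
        ∑ l, algebraMap ℂ Mer (σ (a i j) * u j l) * y (τ l) ^ k := by
      intro j
      rw [hu j, Finset.mul_sum]
      refine Finset.sum_congr rfl fun l _ => ?_
      rw [map_mul, mul_assoc]
    rw [Finset.sum_congr rfl fun j _ => h1 j, Finset.sum_comm]
    refine Finset.sum_congr rfl fun l _ => ?_
    rw [map_sum, Finset.sum_mul]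
  have hmain : ∀ v : Fin (ρ + 1) → ℂ, v ≠ 0 →
      (Finset.univ.filter fun j => ∑ i, v i * u j i = 0).card ≤ n := by
    intro v hv
    apply hG K r n k a hk ha σ (fun j => ∑ i, v i * u j i)
    · intro h
      apply hv
      funext i
      have h1 : ∑ l, v l * u (τ i) l = 0 := congrFun h (τ i)
      rw [Finset.sum_congr rfl fun l _ => by rw [huτ i l]] at h1
      simpa using h1
    · intro i
      have h1 : ∀ j, σ (a i j) * ∑ l, v l * u j l = ∑ l, v l * (σ (a i j) * u j l) := by
        intro j
        rw [Finset.mul_sum]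
        refine Finset.sum_congr rfl fun l _ => ?_
        ring
      rw [Finset.sum_congr rfl fun j _ => h1 j, Finset.sum_comm]
      apply Finset.sum_eq_zero
      intro l _
      rw [← Finset.mul_sum, hrel i l, mul_zero]
  refine ⟨ρ, τ, u, ?_, hli, hu, hmain⟩
  by_contra hρ
  push Not at hρ
  let f : (Fin (ρ + 1) → ℂ) →ₗ[ℂ] (Fin (n + 1) → ℂ) :=
    { toFun := fun v j => ∑ i, v i * u (Fin.castLE (by omega) j) i
      map_add' := by
        intro v w
        funext j
        simp only [Pi.add_apply, add_mul, Finset.sum_add_distrib]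
      map_smul' := by
        intro c v
        funext j
        simp only [Pi.smul_apply, smul_eq_mul, RingHom.id_apply, Finset.mul_sum, mul_assoc] }
  have hker : LinearMap.ker f ≠ ⊥ := by
    apply LinearMap.ker_ne_bot_of_finrank_lt
    rw [Module.finrank_fin_fun, Module.finrank_fin_fun]
    omega
  obtain ⟨v, hv, hv0⟩ := Submodule.exists_mem_ne_zero_of_ne_bot hker
  have h1 := hmain v hv0
  have h2 : (Finset.univ.image (Fin.castLE (by omega : n + 1 ≤ n + r + 1))).card = n + 1 := by
    rw [Finset.card_image_of_injective _ (Fin.castLE_injective _), Finset.card_univ,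
      Fintype.card_fin]
  have h3 : (Finset.univ.image (Fin.castLE (by omega : n + 1 ≤ n + r + 1))) ⊆
      (Finset.univ.filter fun j => ∑ i, v i * u j i = 0) := by
    intro j hj
    rw [Finset.mem_image] at hj
    obtain ⟨l, -, rfl⟩ := hj
    rw [Finset.mem_filter]
    refine ⟨Finset.mem_univ _, ?_⟩
    exact congrFun (LinearMap.mem_ker.1 hv) l
  have h4 := Finset.card_le_card h3
  omega

end Pool.ThmM0
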