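import Pool.Agent.Work.MP_f82ddf_M0.B_MIN
import Pool.Agent.Work.MP_f82ddf_M0.B_GPZ
import Pool.Agent.Work.MP_f82ddf_M0.B_SPN
import Pool.Agent.Work.MP_f82ddf_M0.B_SEL
import Pool.Agent.Work.MP_f82ddf_M0.B_EXPO
import Pool.Agent.Work.MP_f82ddf_M0.B_HOMR
import Pool.Agent.Work.MP_f82ddf_M0.B_TRD
import Pool.Agent.Work.MP_f82ddf_M0.B_MREL
import Pool.Agent.Work.MP_f82ddf_M0.B_ONE
import Pool.Agent.Work.MP_f82ddf_M0.B_FIN1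
import Pool.Agent.Work.MP_f82ddf_M0.B_CDM
import Pool.Agent.Work.MP_f82ddf_M0.B_CH1
import Pool.Agent.Work.MP_f82ddf_M0.B_CPW
import Pool.Agent.Work.MP_f82ddf_M0.B_LGN
import Pool.Agent.Work.MP_f82ddf_M0.B_NHC
import Pool.Agent.Work.MP_f82ddf_M0.B_PAR
import Pool.Agent.Work.MP_f82ddf_M0.B_PUL
import Pool.Agent.Work.MP_f82ddf_M0.B_GEN
import Pool.Agent.Work.MP_f82ddf_M0.B_FIN3
import Pool.Agent.Work.MP_f82ddf_M0.B_TD1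
import Pool.Agent.Work.MP_f82ddf_M5.All
import Pool.Agent.Work.MP_f82ddf_M.B_STE
import Pool.Agent.Work.MP_f82ddf_M.B_ZRO
import Pool.Agent.Work.MP_f82ddf_M.T_SHP
import Pool.Agent.Work.MP_f82ddf_M.T_SHL
import Pool.Agent.Work.MP_f82ddf_M.T_SHR
import Pool.Agent.Work.MP_f82ddf_M.T_RAI
import Pool.Agent.Work.MP_f82ddf_M.T_RES
import Pool.Agent.Work.MP_f82ddf_M.T_PRM
import Pool.Agent.Work.MP_f82ddf_M.T_TER
import Pool.Agent.Work.MP_f82ddf_M.T_PEL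
import Pool.Agent.Work.MP_f82ddf_M.T_PRA
import Pool.Agent.Work.MP_f82ddf_M.T_SUB
import Pool.Agent.Work.MP_f82ddf_M.T_PRB
import Pool.Agent.Work.MP_f82ddf_M.T_ELI
import Pool.Agent.Work.MP_f82ddf_M.T_FIN

/-!
# THEOREM M: assembly of the parts P0, P2, P5
-/

set_option autoImplicit false

namespace Pool.ThmM0

theorem all_T3 : Pool.ThmM.Stmt_T3 :=
  Pool.ThmM.stmt_FIN
    (Pool.ThmM.stmt_TER
      (Pool.ThmM.stmt_STE Pool.ThmM.stmt_SHP (Pool.ThmM.stmt_SHL Pool.ThmM.stmt_SHP)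
        (Pool.ThmM.stmt_SHR Pool.ThmM.stmt_SHP (Pool.ThmM.stmt_SHL Pool.ThmM.stmt_SHP))
        Pool.ThmM.stmt_RAI Pool.ThmM.stmt_RES Pool.ThmM.stmt_PRM)
      Pool.ThmM.stmt_ZRO)
    (Pool.ThmM.stmt_PRB (Pool.ThmM.stmt_PRA Pool.ThmM.stmt_PEL) Pool.ThmM.stmt_SUB)
    Pool.ThmM.stmt_SUB Pool.ThmM.stmt_ELI

theorem all_GPZ : Stmt_GPZ := stmt_GPZ stmt_MIN

theorem all_SPN : Stmt_SPN := stmt_SPN all_GPZ

theorem CDIM_of_COREH (h : Stmt_COREH) : Stmt_CDIM :=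
  stmt_CDM h all_T3 Pool.Agent.Work.MP_f82ddf_M5.all_P5

theorem ONE_of_COREH (h : Stmt_COREH) : Stmt_ONE :=
  stmt_ONE (CDIM_of_COREH h) all_SPN stmt_SEL stmt_EXPO stmt_HOMR stmt_TRD

theorem M1_of_COREH (h : Stmt_COREH) : Stmt_M1 := stmt_FIN1 (ONE_of_COREH h) stmt_MREL

theorem TD1_of_COREH (h : Stmt_COREH) : Stmt_TD1 := stmt_TD1 (ONE_of_COREH h)

theorem M3_of_COREH (h : Stmt_COREH) : Stmt_M3 :=
  stmt_FIN3 (stmt_GEN all_SPN stmt_EXPO (stmt_LGN h stmt_CH1 stmt_CPW) stmt_NHC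
    (stmt_PAR all_GPZ) stmt_PUL)

end Pool.ThmM0
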