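import Pool.Agent.Work.MP_f82ddf_M0.Interface3
import Pool.Agent.Work.MP_f82ddf_M.Core

set_option autoImplicit false

namespace Pool.ThmM0

open MvPolynomial Finset Pool.Agent.Work.MP_f82ddf_nt Pool.Agent.Work.MP_f82ddf_nt.DQ Pool.ThmM

theorem stmt_COREH (hC : Pool.ThmM.Chow.Stmt_CORE) (hT : Pool.ThmM.Stmt_TRA) : Stmt_COREH := by
  classical
  obtain ⟨β, hβ⟩ := hC
  obtain ⟨tr, -, -, htr3, htr4⟩ := hT
  intro r n w d
  refine ⟨max (β w d) (max (n + 1) 2), ?_⟩
  intro Q A T lift hH hcard hdiv hNP horth k x hk hLI hper hnode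
  have hc1 : n + 1 ≤ T.card := le_trans (le_trans (le_max_left _ _) (le_max_right _ _)) hcard
  have hc2 : 2 ≤ T.card := le_trans (le_trans (le_max_right _ _) (le_max_right _ _)) hcard
  refine hβ k r w d Q A T lift x tr (by omega) hH
    (fun e f he hf hz => hdiv e f (le_trans he (le_max_left _ _)) hf hz) ?_ ?_ ?_ htr3 ?_ hnode
  · intro u hu h0
    obtain ⟨v, hv, hvu⟩ := Finset.exists_mem_ne (by omega : 1 < T.card) u
    have h1 := hNP u hu v hv hvu.symm 1 0 (by simp [h0])
    exact one_ne_zero h1.1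
  · intro y hy
    by_contra hne
    have h1 := horth y hne
    have hfil : (T.filter fun u => ∑ i, y i * u i = 0) = T := by
      refine Finset.filter_true_of_mem fun u hu => ?_
      rw [← hy u hu]
      exact Finset.sum_congr rfl fun i _ => mul_comm _ _
    rw [hfil] at h1
    omega
  · intro y hy
    rw [Fintype.linearIndependent_iff] at hLI
    funext i
    refine hLI y ?_ i
    rw [← hy]
    exact Finset.sum_congr rfl fun i _ => Algebra.smul_def _ _
  · intro i
    obtain ⟨f, hf, hx, hp⟩ := hper i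
    obtain ⟨hf', h⟩ := htr4 f hf
    rw [hx, h]
    congr 1
    funext z
    exact hp z

end Pool.ThmM0
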