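import Pool.Agent.Work.MP_f82ddf_M0.Interface

set_option autoImplicit false

/-! # THEOREM M, P0: the bound `n / k` is attained (helper64)

`X : Σ_j a_ij y_j^k = 0` with `a_ij = t_j^i / w_j`, `w_j = Π_(l ≠ j) (t_j - t_l)`, `t_j = j`.  The
equations say that `Σ_j t_j^i y_j^k / w_j = 0` for `i < r`, and these hold for `y_j = s(t_j)`, `s` a
polynomial of degree at most `n / k`, by Lagrange interpolation. -/

namespace Pool.ThmM0

open MvPolynomial Finset Pool.Agent.Work.MP_f82ddf_nt Pool.Agent.Work.MP_f82ddf_nt.DQ Pool.ThmM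

namespace SHARP

/-- The weights `w_j`. -/
noncomputable def w (N : ℕ) (j : Fin N) : ℚ :=
  ∏ l ∈ Finset.univ.erase j, ((j : ℕ) - (l : ℕ) : ℚ)

theorem w_ne (N : ℕ) (j : Fin N) : w N j ≠ 0 := by
  unfold w
  rw [Finset.prod_ne_zero_iff]
  intro l hl
  have h1 : l ≠ j := Finset.ne_of_mem_erase hl
  rw [sub_ne_zero]
  intro h
  apply h1
  have h2 : (j : ℕ) = (l : ℕ) := by exact_mod_cast h
  exact Fin.ext h2.symm

/-- The matrix. -/
noncomputable def mat (n r : ℕ) : Matrix (Fin r) (Fin (n + r + 1)) ℚ :=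
  fun i j => ((j : ℕ) : ℚ) ^ (i : ℕ) / w (n + r + 1) j

/-- Lagrange: divided differences of polynomials of low degree vanish. -/
theorem dd (N : ℕ) {K : Type} [Field K] [CharZero K] (P : Polynomial K) (hP : P.natDegree < N) :
    ∑ j : Fin (N + 1), P.eval ((j : ℕ) : K) / (algebraMap ℚ K (w (N + 1) j)) = 0 := by
  classical
  have hinj : Set.InjOn (fun j : Fin (N + 1) => ((j : ℕ) : K)) (Finset.univ : Finset (Fin (N + 1))) := by
    intro a _ b _ hab
    have hab' : ((a : ℕ) : K) = ((b : ℕ) : K) := hab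
    exact Fin.ext (by exact_mod_cast hab')
  have h := Lagrange.coeff_eq_sum (s := (Finset.univ : Finset (Fin (N + 1))))
    (v := fun j : Fin (N + 1) => ((j : ℕ) : K)) hinj (P := P) (by
      rw [Finset.card_univ, Fintype.card_fin]
      refine lt_of_le_of_lt Polynomial.degree_le_natDegree ?_
      exact_mod_cast (by omega : P.natDegree < N + 1))
  rw [Finset.card_univ, Fintype.card_fin, Nat.add_sub_cancel,
    Polynomial.coeff_eq_zero_of_natDegree_lt hP] at h
  rw [h]
  refine Finset.sum_congr rfl fun j _ => ?_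
  congr 1
  unfold w
  rw [map_prod]
  refine Finset.prod_congr rfl fun l _ => ?_
  rw [map_sub, map_natCast, map_natCast]

/-- Columns of the matrix with distinct indices are independent. -/
theorem minor (n r : ℕ) {K : Type} [Field K] [CharZero K] (J : Fin r → Fin (n + r + 1))
    (hJ : Function.Injective J) :
    (Matrix.of fun i l => algebraMap ℚ K (mat n r i (J l))).det ≠ 0 := by
  have h1 : (Matrix.of fun i l => algebraMap ℚ K (mat n r i (J l))) =
      (Matrix.vandermonde fun l => ((J l : ℕ) : K)).transpose *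
        Matrix.diagonal fun l => (algebraMap ℚ K (w (n + r + 1) (J l)))⁻¹ := by
    ext i l
    rw [Matrix.mul_diagonal, Matrix.transpose_apply, Matrix.vandermonde_apply, Matrix.of_apply]
    unfold mat
    rw [map_div₀, map_pow, map_natCast, div_eq_mul_inv]
  rw [h1, Matrix.det_mul, Matrix.det_transpose, Matrix.det_diagonal]
  refine mul_ne_zero ?_ ?_
  · rw [Matrix.det_vandermonde_ne_zero_iff]
    intro a b hab
    have hab' : ((J a : ℕ) : K) = ((J b : ℕ) : K) := hab
    exact hJ (Fin.ext (by exact_mod_cast hab'))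
  · rw [Finset.prod_ne_zero_iff]
    intro l _
    refine inv_ne_zero ?_
    rw [map_ne_zero_iff _ (algebraMap ℚ K).injective]
    exact w_ne _ _

theorem smooth (n r k : ℕ) (hk : 2 ≤ k) : SmoothDiag k (mat n r) := by
  classical
  intro v hv0 hv
  -- the support of `v` has at least `r` elements
  have hsupp : r ≤ (Finset.univ.filter fun j => v j ≠ 0).card := by
    by_contra hlt
    rw [not_le] at hlt
    obtain ⟨T, hT1, hT2⟩ := Finset.exists_superset_card_eq (α := Fin (n + r + 1)) (n := r)
      (s := Finset.univ.filter fun j => v j ≠ 0) hlt.le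
      (by rw [Fintype.card_fin]; omega)
    let J : Fin r → Fin (n + r + 1) := T.orderEmbOfFin hT2
    have hJ : Function.Injective J := (T.orderEmbOfFin hT2).injective
    have hrange : ∀ j, v j ≠ 0 → ∃ l, J l = j := by
      intro j hj
      have h1 : j ∈ T := hT1 (Finset.mem_filter.2 ⟨Finset.mem_univ _, hj⟩)
      have h2 : j ∈ Set.range (T.orderEmbOfFin hT2) := by
        rw [Finset.range_orderEmbOfFin]
        exact h1
      exact h2
    have hmul : (Matrix.of fun i l => algebraMap ℚ (AlgebraicClosure ℚ) (mat n r i (J l))).mulVec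
        (fun l => v (J l) ^ k) = 0 := by
      funext i
      change ∑ l, algebraMap ℚ (AlgebraicClosure ℚ) (mat n r i (J l)) * v (J l) ^ k = 0
      rw [← hv i, ← Finset.sum_image (s := Finset.univ) (g := J)
        (f := fun j => algebraMap ℚ (AlgebraicClosure ℚ) (mat n r i j) * v j ^ k)
        (fun a _ b _ h => hJ h)]
      refine Finset.sum_subset (Finset.subset_univ _) fun j _ hj => ?_
      have h0 : v j = 0 := by
        by_contra h
        obtain ⟨l, hl⟩ := hrange j h
        exact hj (Finset.mem_image.2 ⟨l, Finset.mem_univ _, hl⟩)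
      rw [h0, zero_pow (by omega), mul_zero]
    have h3 := Matrix.eq_zero_of_mulVec_eq_zero (minor n r (K := AlgebraicClosure ℚ) J hJ) hmul
    apply hv0
    funext j
    change v j = 0
    by_contra hj
    obtain ⟨l, rfl⟩ := hrange j hj
    have h4 : v (J l) ^ k = 0 := congrFun h3 l
    exact hj ((pow_eq_zero_iff (by omega)).1 h4)
  obtain ⟨T, hT1, hT2⟩ := Finset.exists_subset_card_eq hsupp
  let J : Fin r → Fin (n + r + 1) := T.orderEmbOfFin hT2
  have hJ : Function.Injective J := (T.orderEmbOfFin hT2).injective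
  have hJv : ∀ l, v (J l) ≠ 0 := by
    intro l
    have h1 : J l ∈ T := Finset.orderEmbOfFin_mem T hT2 l
    exact (Finset.mem_filter.1 (hT1 h1)).2
  rw [Fintype.linearIndependent_iff]
  intro g hg i
  have hvec : Matrix.vecMul g
      (Matrix.of fun i l => algebraMap ℚ (AlgebraicClosure ℚ) (mat n r i (J l))) = 0 := by
    funext l
    change ∑ i, g i * algebraMap ℚ (AlgebraicClosure ℚ) (mat n r i (J l)) = 0
    have h1 := congrFun hg (J l)
    rw [Finset.sum_apply] at h1
    have hk0 : (k : AlgebraicClosure ℚ) ≠ 0 := by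
      have : (k : AlgebraicClosure ℚ) ≠ ((0 : ℕ) : AlgebraicClosure ℚ) := by
        intro h
        have : k = 0 := by exact_mod_cast h
        omega
      simpa using this
    have h2 : (∑ i, g i * algebraMap ℚ (AlgebraicClosure ℚ) (mat n r i (J l))) *
        ((k : AlgebraicClosure ℚ) * v (J l) ^ (k - 1)) = 0 := by
      rw [Finset.sum_mul]
      have h3 : ∑ i, (g i • fun j => (k : AlgebraicClosure ℚ) *
          algebraMap ℚ (AlgebraicClosure ℚ) (mat n r i j) * v j ^ (k - 1)) (J l) = 0 := h1
      rw [← h3]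
      refine Finset.sum_congr rfl fun i _ => ?_
      rw [Pi.smul_apply, smul_eq_mul]
      ring
    rcases mul_eq_zero.1 h2 with h4 | h4
    · exact h4
    · exact absurd h4 (mul_ne_zero hk0 (pow_ne_zero _ (hJv l)))
  exact congrFun (Matrix.eq_zero_of_vecMul_eq_zero (minor n r (K := AlgebraicClosure ℚ) J hJ) hvec) i

/-- The vectors which span the linear subspace. -/
def lin (n r m : ℕ) (e : Fin (m + 1)) (j : Fin (n + r + 1)) : ℚ := ((j : ℕ) : ℚ) ^ (e : ℕ)

theorem lin_indep (n r m : ℕ) (hm : m ≤ n) : LinearIndependent ℚ (lin n r m) := by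
  classical
  rw [Fintype.linearIndependent_iff]
  intro g hg
  let J : Fin (m + 1) → Fin (n + r + 1) := Fin.castLE (by omega)
  have h1 : Matrix.vecMul g (Matrix.vandermonde fun l : Fin (m + 1) => ((l : ℕ) : ℚ)).transpose
      = 0 := by
    funext l
    change ∑ e, g e * ((l : ℕ) : ℚ) ^ (e : ℕ) = 0
    have h2 := congrFun hg (J l)
    rw [Finset.sum_apply] at h2
    exact h2
  have h2 : (Matrix.vandermonde fun l : Fin (m + 1) => ((l : ℕ) : ℚ)).transpose.det ≠ 0 := by
    rw [Matrix.det_transpose, Matrix.det_vandermonde_ne_zero_iff]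
    intro a b hab
    have hab' : ((a : ℕ) : ℚ) = ((b : ℕ) : ℚ) := hab
    exact Fin.ext (by exact_mod_cast hab')
  intro e
  exact congrFun (Matrix.eq_zero_of_vecMul_eq_zero h2 h1) e

end SHARP

/-- The bound `n / k` is attained: for all `n`, `r` and `k ≥ 2` there is a smooth complete
intersection of `r` diagonal forms of degree `k` and of dimension `n` over the rational numbers
which contains a linear subspace of dimension `n / k`. -/
def Stmt_SHARP : Prop :=
  ∀ n r k : ℕ, 2 ≤ k → ∃ (a : Matrix (Fin r) (Fin (n + r + 1)) ℚ)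
    (l : Fin (n / k + 1) → Fin (n + r + 1) → ℚ), SmoothDiag k a ∧ LinearIndependent ℚ l ∧
      ∀ (σ : ℚ →+* ℂ) (p : PSpace ℂ (n + r)),
        (∃ c : Fin (n / k + 1) → ℂ, ∀ j, p.rep j = ∑ e, c e * σ (l e j)) →
          p ∈ complexPoints (diag k a) σ

theorem stmt_SHARP : Stmt_SHARP := by
  intro n r k hk
  refine ⟨SHARP.mat n r, SHARP.lin n r (n / k), SHARP.smooth n r k hk,
    SHARP.lin_indep n r _ (Nat.div_le_self n k), ?_⟩
  rintro σ p ⟨c, hc⟩
  have hσ : σ = algebraMap ℚ ℂ := Subsingleton.elim _ _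
  rintro F ⟨i, rfl⟩
  set s : Polynomial ℂ := ∑ e : Fin (n / k + 1), Polynomial.C (c e) * Polynomial.X ^ (e : ℕ) with hs
  have hsd : s.natDegree ≤ n / k := by
    refine Polynomial.natDegree_sum_le_of_forall_le _ _ fun e _ => ?_
    refine (Polynomial.natDegree_C_mul_X_pow_le _ _).trans ?_
    exact Nat.lt_succ_iff.1 e.2
  have hP : (Polynomial.X ^ (i : ℕ) * s ^ k).natDegree < n + r := by
    refine lt_of_le_of_lt Polynomial.natDegree_mul_le ?_
    have h1 : (Polynomial.X ^ (i : ℕ) : Polynomial ℂ).natDegree ≤ i :=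
      Polynomial.natDegree_X_pow_le _
    have h2 : (s ^ k).natDegree ≤ k * (n / k) :=
      Polynomial.natDegree_pow_le.trans (Nat.mul_le_mul_left k hsd)
    have h3 := Nat.mul_div_le n k
    have h4 := i.2
    omega
  have h := SHARP.dd (n + r) (Polynomial.X ^ (i : ℕ) * s ^ k) hP
  rw [eval₂_sum, ← h]
  refine Finset.sum_congr rfl fun j _ => ?_
  rw [eval₂_mul, eval₂_pow, eval₂_C, eval₂_X, hc j, hσ, Polynomial.eval_mul, Polynomial.eval_pow,
    Polynomial.eval_pow, Polynomial.eval_X]
  have h5 : s.eval ((j : ℕ) : ℂ) =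
      ∑ e : Fin (n / k + 1), c e * algebraMap ℚ ℂ (SHARP.lin n r (n / k) e j) := by
    rw [hs, Polynomial.eval_finsetSum]
    refine Finset.sum_congr rfl fun e _ => ?_
    unfold SHARP.lin
    rw [Polynomial.eval_mul, Polynomial.eval_C, Polynomial.eval_pow, Polynomial.eval_X, map_pow,
      map_natCast]
  rw [h5]
  unfold SHARP.mat
  rw [map_div₀, map_pow, map_natCast]
  ring

end Pool.ThmM0
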