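import Pool.Agent.Work.MP_f82ddf_M0.All
import Pool.Agent.Work.MP_f82ddf_M0.B_COREH
import Pool.Agent.Work.MP_f82ddf_M0.B_SHARP
import Pool.Agent.Work.MP_f82ddf_M.AllC

/-!
# THEOREM M: statements (1) and (3) for the complete intersections themselves
-/

set_option autoImplicit false

namespace Pool.ThmM0

theorem all_COREH : Stmt_COREH := stmt_COREH Pool.ThmM.Chow.q_CORE Pool.ThmM.all_TRA

theorem all_ONE : Stmt_ONE := ONE_of_COREH all_COREH

theorem all_M1 : Stmt_M1 := M1_of_COREH all_COREH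

theorem all_TD1 : Stmt_TD1 := TD1_of_COREH all_COREH

theorem all_GEN : Stmt_GEN :=
  stmt_GEN all_SPN stmt_EXPO (stmt_LGN all_COREH stmt_CH1 stmt_CPW) stmt_NHC
    (stmt_PAR all_GPZ) stmt_PUL

theorem all_M3 : Stmt_M3 := M3_of_COREH all_COREH

end Pool.ThmM0
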