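import Pool.Agent.Work.MP_f82ddf_M0.Interface4

set_option autoImplicit false

namespace Pool.ThmM0

open MvPolynomial Finset Pool.Agent.Work.MP_f82ddf_nt Pool.Agent.Work.MP_f82ddf_nt.DQ Pool.ThmM

/-- DHO (helper58) -/
theorem stmt_DHO : Stmt_DHO := by
  classical
  intro M e q P hq0 hP0 hPe hP hind
  obtain ⟨s, hs⟩ : ∃ s : Fin (M + 2) → MvPolynomial (Fin (M + 1)) ℂ, s = Fin.cons 1 (fun j => X j) :=
    ⟨_, rfl⟩
  obtain ⟨G, hG⟩ : ∃ G : MvPolynomial (Fin (M + 1)) ℂ, G = aeval s P := ⟨_, rfl⟩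
  -- the substitution at a point of any algebra
  have hcomp : ∀ (B : Type) [Field B] [Algebra ℂ B] (v : Fin (M + 2) → B), v 0 ≠ 0 →
      aeval v P = v 0 ^ e * aeval (fun j : Fin (M + 1) => v j.succ / v 0) G := by
    intro B _ _ v hv
    have h1 : aeval (fun j : Fin (M + 1) => v j.succ / v 0) G =
        aeval (fun t : Fin (M + 2) => v t / v 0) P := by
      rw [hG, MvPolynomial.comp_aeval_apply]
      congr 2
      funext t
      rw [hs]
      refine Fin.cases ?_ (fun j => ?_) t
      · rw [Fin.cons_zero, map_one, div_self hv]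
      · rw [Fin.cons_succ, aeval_X]
    have h2 : v = (v 0) • (fun t : Fin (M + 2) => v t / v 0) := by
      funext t
      show v t = v 0 * (v t / v 0)
      rw [mul_div_cancel₀ _ hv]
    rw [h1]
    conv_lhs => rw [h2, aeval_def, eval₂_smul_hom hPe]
    rfl
  have h3 : aeval (fun j : Fin (M + 1) => q j.succ / q 0) G = 0 := by
    have h4 := hcomp Mer q hq0
    rw [hP] at h4
    exact (mul_eq_zero.1 h4.symm).resolve_left (pow_ne_zero _ hq0)
  have hG0 : G = 0 := hind.eq_zero_of_aeval_eq_zero G h3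
  have h6 : P * X 0 = 0 := by
    refine MvPolynomial.funext fun v => ?_
    rw [map_mul, eval_X, map_zero]
    by_cases hv : v 0 = 0
    · rw [hv, mul_zero]
    have h7 := hcomp ℂ v hv
    rw [hG0, map_zero, mul_zero] at h7
    have h8 : eval v P = 0 := h7
    rw [h8, zero_mul]
  rcases mul_eq_zero.1 h6 with h7 | h7
  · exact hP0 h7
  · exact X_ne_zero _ h7

end Pool.ThmM0
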