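import Pool.Agent.Work.MP_f82ddf_M0.Interface4

set_option autoImplicit false

namespace Pool.ThmM0

open MvPolynomial Finset Pool.Agent.Work.MP_f82ddf_nt Pool.Agent.Work.MP_f82ddf_nt.DQ Pool.ThmM

/-- DMX -/
theorem stmt_DMX (hONE : Stmt_ONE) (hNUS : Stmt_NUS) (hFMN : Stmt_FMN) (hTRF : Stmt_TRF) :
    Stmt_DMX := by
  intro n
  obtain ⟨N₀, hN⟩ := hONE n
  refine ⟨N₀, fun r k hr hk K _ _ a ha m e S h hS hfin σ x hx => ?_⟩
  by_cases hx0 : x = 0
  · intro s
    refine ⟨1, X 0, X_ne_zero 0, isHomogeneous_X _ _, ?_⟩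
    rw [aeval_X, hx0]
    rfl
  obtain ⟨he, hh, hv⟩ := hfin
  obtain ⟨j₀, hj₀, halg⟩ := hFMN K m (n + r) e S h hS he hh
    (fun v hvS hv0 => (hv v hvS).2 hv0) σ x hx hx0
  have hy : (fun j => vm σ x (h j)) ≠ 0 := fun h0 => hj₀ (congrFun h0 j₀)
  have hrel : ∀ i, ∑ j, algebraMap ℂ Mer (σ (a i j)) * (vm σ x (h j)) ^ k = 0 := by
    intro i
    have h1 := hNUS K m S (∑ j, C (a i j) * h j ^ k) (by
      intro v hvS
      have h2 := (hv v hvS).1 i
      rw [map_sum]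
      simp only [map_mul, map_pow, aeval_C]
      exact h2) σ x hx
    unfold vm at h1
    rw [eval₂_sum] at h1
    unfold vm
    simp only [eval₂_mul, eval₂_pow, eval₂_C, RingHom.comp_apply] at h1
    exact h1
  exact hTRF m (n + r) (n / k) x (fun j => vm σ x (h j)) j₀ hj₀ halg fun s =>
    hN r k hr hk K a ha σ (fun j => vm σ x (h j)) hy hrel (n / k) s (by
      have := Nat.lt_mul_div_succ n (show 0 < k by omega)
      rw [mul_comm]
      exact this)

end Pool.ThmM0
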