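import Pool.Agent.Work.MP_f82ddf_M0.Interface4

/-!
# Theorem M, part P0, block FIA
-/

set_option autoImplicit false

namespace Pool.ThmM0

open MvPolynomial Finset Pool.Agent.Work.MP_f82ddf_nt Pool.Agent.Work.MP_f82ddf_nt.DQ Pool.ThmM

/-- FIA -/
theorem stmt_FIA (h1 : Stmt_DMX) (h2 : Stmt_IMG) (h3 : Stmt_PAI) (h4 : Stmt_GEX)
    (h5 : Pool.MCL.stmt_P6C) : Stmt_FIA := by
  intro n
  obtain ⟨N₀, hN⟩ := h1 n
  obtain ⟨D, hD⟩ := h4 n
  refine ⟨N₀, D, fun r k hk K _ _ a ha m e S h hS hfin =>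
    ⟨fun hr σ f hf hfS => ?_, fun hr hn => ?_, ?_⟩⟩
  · exact h2 K m (n / k) S hS (hN r k hr hk K a ha m e S h hS hfin) σ f hf hfS
  · have hnk : n / k ≤ 1 := by
      have h6 : n / k < 2 := (Nat.div_lt_iff_lt_mul (by omega)).2 hn
      omega
    refine h5 K m S hS ?_
    intro σ x i hi hF
    exact h3 K m (n / k) S hnk (hN r k hr hk K a ha m e S h hS hfin) σ x i hi hF
  · rintro ⟨l, hl, hl2⟩ σ
    exact hD r k hk K a ha l hl hl2 m e S h hS hfin σ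

end Pool.ThmM0
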