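import Pool.Agent.Work.MP_f82ddf_M0.Interface

set_option autoImplicit false

namespace Pool.ThmM0

open MvPolynomial Finset Pool.Agent.Work.MP_f82ddf_nt Pool.Agent.Work.MP_f82ddf_nt.DQ Pool.ThmM
open Topology Filter

/-- FIN1 -/
theorem stmt_FIN1 (h1 : Stmt_ONE) (h2 : Stmt_MREL) : Stmt_FIN1 := by
  intro n
  obtain ⟨N₀, hN₀⟩ := h1 n
  refine ⟨N₀, fun r k hr hk K _ _ a ha σ f hf hfX => ?_⟩
  have hS : ∀ F ∈ diag k a, ∃ e, F.IsHomogeneous e := by
    rintro F ⟨i, rfl⟩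
    refine ⟨k, IsHomogeneous.sum _ _ _ fun j _ => ?_⟩
    have h3 := (isHomogeneous_C (Fin (n + r + 1)) (a i j)).mul
      ((isHomogeneous_X K j).pow k)
    simpa using h3
  obtain ⟨φ, hφ, i₀, hi₀, hF, hrep, -⟩ := exists_mer_of_curve hS σ f hf hfX
  intro s
  obtain ⟨e, P, hP0, hPe, hP⟩ := hN₀ r k hr hk K a ha σ (fun j => Mer.mk (φ j) (hφ j)) (by
      intro h0
      have h4 := congrFun h0 i₀
      rw [Pi.zero_apply] at h4
      rw [hi₀] at h4
      exact one_ne_zero h4) (by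
      intro i
      have h4 := hF _ ⟨i, rfl⟩
      rw [eval₂_sum] at h4
      rw [← h4]
      refine Finset.sum_congr rfl fun j _ => ?_
      rw [eval₂_mul, eval₂_C, eval₂_pow, eval₂_X]
      rfl) (n / k) s (by
      have h5 := Nat.lt_mul_div_succ n (show 0 < k by omega)
      rw [mul_comm]
      exact h5)
  exact ⟨e, P, hP0, hPe, h2 (n + r) f φ hφ hf hrep _ e s P hPe hP⟩

end Pool.ThmM0
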