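import Pool.Agent.Work.MP_f82ddf_M0.Interface4

/-!
# Theorem M, part P0, block GEX
-/

set_option autoImplicit false

namespace Pool.ThmM0

open MvPolynomial Finset Pool.Agent.Work.MP_f82ddf_nt Pool.Agent.Work.MP_f82ddf_nt.DQ Pool.ThmM
open Topology Filter

/-- GEX -/
theorem stmt_GEX (h1 : Stmt_GEN) (h2 : Stmt_NUS) (h3 : Stmt_FMN) (h4 : Stmt_CST) : Stmt_GEX := by
  intro n
  obtain ⟨D, hD⟩ := h1 n
  refine ⟨D, fun r k hk K _ _ a ha l hl hl2 m e S h hS hfin σ => ?_⟩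
  by_contra hX
  obtain ⟨f, hf, hfX, hab⟩ := exists_entire_curve hS σ hX
  obtain ⟨φ, hφ, i₀, hi₀, hF, hrep, hcon⟩ := exists_mer_of_curve hS σ f hf hfX
  obtain ⟨j, hj⟩ := hcon hab
  set x : Fin (m + 1) → Mer := fun j => Mer.mk (φ j) (hφ j) with hx
  have hon : OnMer σ S x := hF
  obtain ⟨he, hh, hv⟩ := hfin
  have hx0 : x ≠ 0 := by
    intro h0
    have h5 : x i₀ = 1 := hi₀
    rw [h0] at h5
    exact zero_ne_one h5
  have hrel : ∀ i, ∑ j, algebraMap ℂ Mer (σ (a i j)) * vm σ x (h j) ^ k = 0 := by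
    intro i
    have h5 := h2 K m S (∑ j, C (a i j) * h j ^ k) (by
      intro v hv0
      have h6 := (hv v hv0).1 i
      rw [map_sum, ← h6]
      refine Finset.sum_congr rfl fun j _ => ?_
      rw [map_mul, map_pow]
      congr 1
      exact aeval_C v (a i j)) σ x hon
    rw [vm, eval₂_sum] at h5
    rw [← h5]
    refine Finset.sum_congr rfl fun j _ => ?_
    rw [eval₂_mul, eval₂_C, eval₂_pow]
    rfl
  obtain ⟨j₀, hj₀, halg⟩ := h3 K m (n + r) e S h hS he hh (fun v hv0 hv1 => (hv v hv0).2 hv1)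
    σ x hon hx0
  have hz : ∀ j, ∃ z : ℂ, vm σ x (h j) = algebraMap ℂ Mer z * vm σ x (h j₀) := fun j =>
    hD r k hk K a ha l hl hl2 σ (fun j => vm σ x (h j)) hrel j₀ j hj₀
  have hi1 : x i₀ = 1 := hi₀
  have hi2 : x i₀ ≠ 0 := by
    rw [hi1]
    exact one_ne_zero
  obtain ⟨z, hz2⟩ := h4 (n + r) (fun j => vm σ x (h j)) j₀ hj₀ hz (x j / x i₀) (halg j i₀ hi2)
  rw [hi1, div_one] at hz2
  exact hj z hz2

end Pool.ThmM0
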