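import Pool.Agent.Work.MP_f82ddf_M0.Interface4

set_option autoImplicit false

open MvPolynomial Pool.Agent.Work.MP_f82ddf_nt Pool.Agent.Work.MP_f82ddf_nt.DQ

namespace Pool.ThmM0

theorem stmt_IMG (hMREL : Stmt_MREL) : Stmt_IMG := by
  intro K _ m M S hS hDim σ f hf hfX
  obtain ⟨φ, hφ, i, _, h2, h3, _⟩ := exists_mer_of_curve hS σ f hf hfX
  intro s
  obtain ⟨e, P, hP0, hPe, hP⟩ := hDim σ (fun j => Mer.mk (φ j) (hφ j)) h2 s
  exact ⟨e, P, hP0, hPe, hMREL m f φ hφ hf h3 (M + 2) e s P hPe hP⟩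

end Pool.ThmM0
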