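import Pool.Agent.Work.MP_f82ddf_M0.Interface

set_option autoImplicit false

namespace Pool.ThmM0

open MvPolynomial Finset Pool.Agent.Work.MP_f82ddf_nt Pool.Agent.Work.MP_f82ddf_nt.DQ Pool.ThmM

theorem stmt_MIN : Stmt_MIN := by
  classical
  intro K _ _ r N k a hk hsm J hJ hdet
  obtain ⟨c, hc0, hc⟩ := Matrix.exists_mulVec_eq_zero_iff.2 hdet
  have hroot : ∀ l : Fin r, ∃ v : AlgebraicClosure K, v ^ k = algebraMap K (AlgebraicClosure K) (c l) :=
    fun l => IsAlgClosed.exists_pow_nat_eq _ (by omega)
  choose w hw using hroot
  let v : Fin (N + 1) → AlgebraicClosure K := fun j => ∑ l, if J l = j then w l else 0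
  have hvJ : ∀ l, v (J l) = w l := by
    intro l
    simp only [v]
    rw [Finset.sum_eq_single l]
    · simp
    · intro l' _ hl'
      rw [if_neg]
      intro h
      exact hl' (hJ h)
    · intro h
      exact absurd (Finset.mem_univ l) h
  have hv0 : ∀ j, (∀ l, J l ≠ j) → v j = 0 := by
    intro j hj
    simp only [v]
    exact Finset.sum_eq_zero fun l _ => if_neg (hj l)
  have hvne : v ≠ 0 := by
    intro h
    apply hc0
    funext l
    have h1 : w l = 0 := by rw [← hvJ l, h]; rfl
    have h2 := hw l
    rw [h1, zero_pow (by omega)] at h2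
    exact ((map_eq_zero (algebraMap K (AlgebraicClosure K))).1 h2.symm)
  -- sums over all the columns reduce to sums over `J`
  have hsumJ : ∀ g : Fin (N + 1) → AlgebraicClosure K, (∀ j, (∀ l, J l ≠ j) → g j = 0) →
      ∑ j, g j = ∑ l, g (J l) := by
    intro g hg
    rw [← Finset.sum_image (f := g) (s := Finset.univ) (g := J) (fun x _ y _ h => hJ h)]
    symm
    apply Finset.sum_subset (Finset.subset_univ _)
    intro j _ hj
    apply hg
    intro l hl
    exact hj (Finset.mem_image.2 ⟨l, Finset.mem_univ _, hl⟩)
  have heq : ∀ i, ∑ j, algebraMap K (AlgebraicClosure K) (a i j) * v j ^ k = 0 := by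
    intro i
    rw [hsumJ]
    · have h1 := congrFun hc i
      simp only [Matrix.mulVec, dotProduct, Matrix.of_apply, Pi.zero_apply] at h1
      have h2 := congrArg (algebraMap K (AlgebraicClosure K)) h1
      rw [map_sum, map_zero] at h2
      rw [← h2]
      refine Finset.sum_congr rfl fun l _ => ?_
      rw [hvJ, hw, map_mul]
    · intro j hj
      rw [hv0 j hj, zero_pow (by omega), mul_zero]
  have hli := hsm v hvne heq
  rw [Fintype.linearIndependent_iff] at hli
  -- the square matrix is singular, so its rows are dependent
  have hdet' : (Matrix.of fun i l => a i (J l)).transpose.det = 0 := by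
    rw [Matrix.det_transpose]; exact hdet
  obtain ⟨b, hb0, hb⟩ := Matrix.exists_mulVec_eq_zero_iff.2 hdet'
  apply hb0
  funext i
  have h3 := hli (fun i => algebraMap K (AlgebraicClosure K) (b i)) (by
    funext j
    rw [Finset.sum_apply]
    simp only [Pi.smul_apply, smul_eq_mul, Pi.zero_apply]
    by_cases hj : ∃ l, J l = j
    · obtain ⟨l, rfl⟩ := hj
      have h4 := congrFun hb l
      simp only [Matrix.mulVec, dotProduct, Matrix.transpose_apply, Matrix.of_apply,
        Pi.zero_apply] at h4
      have h5 := congrArg (algebraMap K (AlgebraicClosure K)) h4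
      rw [map_sum, map_zero] at h5
      calc ∑ i, algebraMap K (AlgebraicClosure K) (b i) *
            ((k : AlgebraicClosure K) * algebraMap K (AlgebraicClosure K) (a i (J l)) *
              v (J l) ^ (k - 1))
          = (k : AlgebraicClosure K) * v (J l) ^ (k - 1) *
              ∑ i, algebraMap K (AlgebraicClosure K) (a i (J l) * b i) := by
            rw [Finset.mul_sum]
            refine Finset.sum_congr rfl fun i _ => ?_
            rw [map_mul]
            ring
        _ = 0 := by rw [h5, mul_zero]
    · push Not at hj
      apply Finset.sum_eq_zero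
      intro i _
      rw [hv0 j hj, zero_pow (by omega), mul_zero, mul_zero]) i
  exact (map_eq_zero (algebraMap K (AlgebraicClosure K))).1 h3

end Pool.ThmM0
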