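import Pool.Agent.Work.MP_f82ddf_M0.Interface4

set_option autoImplicit false

/-! # THEOREM M, part P0: block NUS (Nullstellensatz for points with values in `Mer`) -/

namespace Pool.ThmM0

open MvPolynomial Finset Pool.Agent.Work.MP_f82ddf_nt Pool.Agent.Work.MP_f82ddf_nt.DQ Pool.ThmM

theorem stmt_NUS : Stmt_NUS := by
  intro K _ m S G hG σ x hx
  by_contra hne
  have h1 : G ∈ vanishingIdeal K (zeroLocus (AlgebraicClosure K) (Ideal.span S)) := by
    intro v hv
    exact hG v fun F hF => hv F (Ideal.subset_span hF)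
  rw [vanishingIdeal_zeroLocus_eq_radical] at h1
  obtain ⟨t, ht⟩ := h1
  have h2 : Ideal.span S ≤ RingHom.ker (eval₂Hom ((algebraMap ℂ Mer).comp σ) x) := by
    rw [Ideal.span_le]
    intro p hp
    exact hx p hp
  have h3 : eval₂Hom ((algebraMap ℂ Mer).comp σ) x (G ^ t) = 0 := h2 ht
  rw [map_pow] at h3
  exact pow_ne_zero t hne h3

end Pool.ThmM0
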