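import Pool.Agent.Work.MP_f82ddf_M0.Interface4

set_option autoImplicit false

namespace Pool.ThmM0

open MvPolynomial Finset Pool.Agent.Work.MP_f82ddf_nt Pool.Agent.Work.MP_f82ddf_nt.DQ Pool.ThmM

/-- PAI -/
theorem stmt_PAI (hDHO : Stmt_DHO) : Stmt_PAI := by
  intro K _ m M S hM hD σ x i₀ hi₀ hS i j hind
  have hx1 : (1 : Mer) ≠ 0 := one_ne_zero
  obtain rfl | rfl : M = 0 ∨ M = 1 := by omega
  · obtain ⟨e, P, hP0, hPe, hP⟩ := hD σ x hS ![i₀, i]
    refine hDHO 0 e (fun t => x ((![i₀, i] : Fin 2 → Fin (m + 1)) t)) P ?_ hP0 hPe hP ?_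
    · show x i₀ ≠ 0
      rw [hi₀]; exact hx1
    · have h2 := hind.comp (fun _ : Fin (0 + 1) => (0 : Fin 2))
        (fun s t _ => by
          apply Fin.ext
          have h1 := s.2
          have h2 := t.2
          omega)
      have h3 : (fun t : Fin (0 + 1) => x ((![i₀, i] : Fin 2 → Fin (m + 1)) t.succ) /
          x ((![i₀, i] : Fin 2 → Fin (m + 1)) 0)) =
          (![x i, x j] : Fin 2 → Mer) ∘ (fun _ : Fin (0 + 1) => (0 : Fin 2)) := by
        funext t
        fin_cases t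
        show x i / x i₀ = x i
        rw [hi₀, div_one]
      rw [h3]
      exact h2
  · obtain ⟨e, P, hP0, hPe, hP⟩ := hD σ x hS ![i₀, i, j]
    refine hDHO 1 e (fun t => x ((![i₀, i, j] : Fin 3 → Fin (m + 1)) t)) P ?_ hP0 hPe hP ?_
    · show x i₀ ≠ 0
      rw [hi₀]; exact hx1
    · have h3 : (fun t : Fin (1 + 1) => x ((![i₀, i, j] : Fin 3 → Fin (m + 1)) t.succ) /
          x ((![i₀, i, j] : Fin 3 → Fin (m + 1)) 0)) = (![x i, x j] : Fin 2 → Mer) := by
        funext t
        fin_cases t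
        · show x i / x i₀ = x i
          rw [hi₀, div_one]
        · show x j / x i₀ = x j
          rw [hi₀, div_one]
      rw [h3]
      exact hind

end Pool.ThmM0
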