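import Pool.Agent.Work.MP_f82ddf_M0.Interface3

set_option autoImplicit false

namespace Pool.ThmM0

open MvPolynomial Finset Pool.Agent.Work.MP_f82ddf_nt Pool.Agent.Work.MP_f82ddf_nt.DQ Pool.ThmM

/-- TD1 -/
theorem stmt_TD1 (h1 : Stmt_ONE) : Stmt_TD1 := by
  classical
  intro n
  obtain ⟨N₀, hN₀⟩ := h1 n
  refine ⟨N₀, fun r k hr hk hnk K _ _ a ha σ y hy hrel i₀ i j hi₀ hind => ?_⟩
  obtain ⟨e, P, hP0, hPe, hP⟩ := hN₀ r k hr hk K a ha σ y hy hrel 1 ![i₀, i, j] (by omega)
  set G : MvPolynomial (Fin 2) ℂ := aeval ![1, X 0, X 1] P with hG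
  -- the value of `G` at the quotients
  have hsm : (fun t => y ((![i₀, i, j] : Fin 3 → Fin (n + r + 1)) t)) =
      (y i₀) • (![1, y i / y i₀, y j / y i₀] : Fin 3 → Mer) := by
    funext t
    fin_cases t
    · simp
    · show y i = y i₀ * (y i / y i₀)
      rw [mul_div_cancel₀ _ hi₀]
    · show y j = y i₀ * (y j / y i₀)
      rw [mul_div_cancel₀ _ hi₀]
  have h2 : aeval (![1, y i / y i₀, y j / y i₀] : Fin 3 → Mer) P = 0 := by
    have h3 : aeval (fun t => y ((![i₀, i, j] : Fin 3 → Fin (n + r + 1)) t)) P = 0 := hP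
    rw [hsm, aeval_def, eval₂_smul_hom hPe] at h3
    exact (mul_eq_zero.1 h3).resolve_left (pow_ne_zero _ hi₀)
  have h4 : aeval (![y i / y i₀, y j / y i₀] : Fin 2 → Mer) G = 0 := by
    rw [hG, MvPolynomial.comp_aeval_apply]
    have h5 : (fun t => aeval (![y i / y i₀, y j / y i₀] : Fin 2 → Mer)
        ((![1, X 0, X 1] : Fin 3 → MvPolynomial (Fin 2) ℂ) t)) =
        ![1, y i / y i₀, y j / y i₀] := by
      funext t
      fin_cases t
      · show aeval _ (1 : MvPolynomial (Fin 2) ℂ) = 1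
        exact map_one _
      · show aeval _ (X 0 : MvPolynomial (Fin 2) ℂ) = _
        rw [aeval_X]
        rfl
      · show aeval _ (X 1 : MvPolynomial (Fin 2) ℂ) = _
        rw [aeval_X]
        rfl
    rw [h5]
    exact h2
  have hG0 : G = 0 := hind.eq_zero_of_aeval_eq_zero G h4
  -- the dehomogenisation is injective
  have h6 : P * X 0 = 0 := by
    refine MvPolynomial.funext fun v => ?_
    rw [map_mul, eval_X, map_zero]
    by_cases hv : v 0 = 0
    · rw [hv, mul_zero]
    have h7 : v = (v 0) • (![1, v 1 / v 0, v 2 / v 0] : Fin 3 → ℂ) := by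
      funext t
      fin_cases t
      · simp
      · show v 1 = v 0 * (v 1 / v 0)
        rw [mul_div_cancel₀ _ hv]
      · show v 2 = v 0 * (v 2 / v 0)
        rw [mul_div_cancel₀ _ hv]
    have h8 : eval (![1, v 1 / v 0, v 2 / v 0] : Fin 3 → ℂ) P = 0 := by
      have h9 : aeval (![v 1 / v 0, v 2 / v 0] : Fin 2 → ℂ) G = 0 := by rw [hG0, map_zero]
      rw [hG, MvPolynomial.comp_aeval_apply] at h9
      have h5 : (fun t => aeval (![v 1 / v 0, v 2 / v 0] : Fin 2 → ℂ)
          ((![1, X 0, X 1] : Fin 3 → MvPolynomial (Fin 2) ℂ) t)) =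
          ![1, v 1 / v 0, v 2 / v 0] := by
        funext t
        fin_cases t
        · show aeval _ (1 : MvPolynomial (Fin 2) ℂ) = 1
          exact map_one _
        · show aeval _ (X 0 : MvPolynomial (Fin 2) ℂ) = _
          rw [aeval_X]
          rfl
        · show aeval _ (X 1 : MvPolynomial (Fin 2) ℂ) = _
          rw [aeval_X]
          rfl
      rw [h5] at h9
      exact h9
    have h10 : eval v P = 0 := by
      have h11 : eval v P = eval₂ (RingHom.id ℂ) v P := rfl
      rw [h11, h7, eval₂_smul_hom hPe]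
      have h12 : eval₂ (RingHom.id ℂ) (![1, v 1 / v 0, v 2 / v 0] : Fin 3 → ℂ) P = 0 := h8
      rw [h12, mul_zero]
    rw [h10, zero_mul]
  rcases mul_eq_zero.1 h6 with h7 | h7
  · exact hP0 h7
  · exact X_ne_zero _ h7

end Pool.ThmM0
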