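import Pool.Agent.Work.MP_f82ddf_M0.Interface4

set_option autoImplicit false

namespace Pool.ThmM0

open MvPolynomial Finset Pool.Agent.Work.MP_f82ddf_nt Pool.Agent.Work.MP_f82ddf_nt.DQ Pool.ThmM

private lemma TRF_main {s m : ℕ} (t : Fin s → Mer) (p : Fin m → Mer)
    (hp : AlgebraicIndependent ℂ p)
    (h : ∀ j, IsAlgebraic (Algebra.adjoin ℂ (Set.range t)) (p j)) :
    ∃ ι : Fin m → Fin s, AlgebraicIndependent ℂ (fun j => t (ι j)) := by
  classical
  let M := AlgebraicIndependent.matroid ℂ Mer
  obtain ⟨B, hB⟩ := M.exists_isBasis (Set.range t) (Set.subset_univ _)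
  have hPi : M.Indep (Set.range p) := by
    rw [AlgebraicIndependent.matroid_indep_iff]
    exact hp.to_subtype_range
  have hPc : Set.range p ⊆ M.closure (Set.range t) := by
    rintro _ ⟨j, rfl⟩
    rw [AlgebraicIndependent.matroid_closure_eq]
    exact (h j)
  have h1 : (Set.range p).encard ≤ M.eRk (Set.range t) := by
    rw [← M.eRk_closure_eq]
    exact hPi.encard_le_eRk_of_subset hPc
  rw [← hB.encard_eq_eRk] at h1
  have hcard : (Set.range p).encard = m := by
    have hinj : Function.Injective p := hp.injective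
    rw [← Set.image_univ, hinj.encard_image]
    simp
  rw [hcard] at h1
  have hBfin : B.Finite := (Set.finite_range t).subset hB.subset
  have h2 : m ≤ B.ncard := by
    rw [← hBfin.cast_ncard_eq] at h1
    exact_mod_cast h1
  have : Fintype B := hBfin.fintype
  have h3 : Fintype.card (Fin m) ≤ Fintype.card B := by
    rw [Fintype.card_fin, ← Nat.card_eq_fintype_card]
    exact h2
  obtain ⟨e⟩ := Function.Embedding.nonempty_of_card_le h3
  have hch : ∀ b : B, ∃ i, t i = (b : Mer) := fun b => hB.subset b.2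
  choose g hg using hch
  refine ⟨fun j => g (e j), ?_⟩
  have hBi : AlgebraicIndependent ℂ (fun b : B => (b : Mer)) := hB.indep
  have := hBi.comp e e.injective
  convert this using 1
  funext j
  simp [hg]

theorem stmt_TRF (h1 : Stmt_HOMR) (h2 : Stmt_DHO) : Stmt_TRF := by
  intro m N M x y j₀ hy halg hrel s
  by_contra hno
  push Not at hno
  -- `x (s 0) ≠ 0`
  have hx0 : x (s 0) ≠ 0 := by
    intro h0
    apply hno 1 (X 0) (X_ne_zero _) (isHomogeneous_X _ _)
    rw [aeval_X]
    exact h0
  have hind : AlgebraicIndependent ℂ (fun j : Fin (M + 1) => x (s j.succ) / x (s 0)) :=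
    h1 M (fun i => x (s i)) hx0 hno
  obtain ⟨ι, hι⟩ := TRF_main (fun j => y j / y j₀) _ hind (fun j => halg (s j.succ) (s 0) hx0)
  obtain ⟨e, P, hP0, hPe, hP⟩ := hrel (Fin.cons j₀ ι)
  refine h2 M e (fun i => y ((Fin.cons j₀ ι : Fin (M + 2) → Fin (N + 1)) i)) P ?_ hP0 hPe hP ?_
  · simpa using hy
  · simpa using hι

end Pool.ThmM0
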