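import Pool.Agent.Work.MP_f82ddf_nt.DQ.Hol2
import Pool.Agent.Work.MP_f82ddf_nt.DQ.Emb
import Pool.Agent.Work.MP_f82ddf_M.Terminal

set_option autoImplicit false

/-! # THEOREM M (MP_f82ddf_nt), part P0: frame and final statement (1)

Complete intersections `X` of `r` diagonal forms `Σ_j a_ij y_j^k` in projective space of dimension
`n + r`, smooth, `r ≥ N₀(n)`, `k ≥ 2`: every entire curve in `X` has Zariski closure of dimension
at most `n / k`.  Reduction to the points of `X` with values in the field `Mer` of meromorphic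
functions and to CORE (helper71, helper32, helper24) and the final count (helper42), which are
summarised here in `Stmt_CDIM`. -/

namespace Pool.ThmM0

open MvPolynomial Finset Pool.Agent.Work.MP_f82ddf_nt Pool.Agent.Work.MP_f82ddf_nt.DQ Pool.ThmM

/-- The diagonal forms `∑ j, a i j * y j ^ k`, one for each row of the matrix `a`. -/
def diag {K : Type*} [Field K] {r N : ℕ} (k : ℕ) (a : Matrix (Fin r) (Fin (N + 1)) K) :
    Set (MvPolynomial (Fin (N + 1)) K) :=
  Set.range fun i => ∑ j, C (a i j) * X j ^ k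

/-- The intersection of the hypersurfaces `∑ j, a i j * y j ^ k = 0`, one for each row of the
matrix `a`, is a smooth complete intersection (Jacobian criterion): at every nonzero geometric
point the gradients of the forms are linearly independent. -/
def SmoothDiag {K : Type*} [Field K] {r N : ℕ} (k : ℕ) (a : Matrix (Fin r) (Fin (N + 1)) K) :
    Prop :=
  ∀ v : Fin (N + 1) → AlgebraicClosure K, v ≠ 0 →
    (∀ i, ∑ j, algebraMap K (AlgebraicClosure K) (a i j) * v j ^ k = 0) →
    LinearIndependent (AlgebraicClosure K)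
      (fun (i : Fin r) (j : Fin (N + 1)) =>
        (k : AlgebraicClosure K) * algebraMap K (AlgebraicClosure K) (a i j) * v j ^ (k - 1))

/-- The Zariski closure of the image of `f` in projective space has dimension at most `m`: any
`m + 2` of the homogeneous coordinates satisfy on the image a nontrivial homogeneous relation. -/
def ImageDimLE {N : ℕ} (f : ℂ → PSpace ℂ N) (m : ℕ) : Prop :=
  ∀ s : Fin (m + 2) → Fin (N + 1), ∃ (e : ℕ) (P : MvPolynomial (Fin (m + 2)) ℂ),
    P ≠ 0 ∧ P.IsHomogeneous e ∧ ∀ z, eval (fun i => (f z).rep (s i)) P = 0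

/-- THEOREM M, PART (1). -/
def Stmt_M1 : Prop :=
  ∀ n : ℕ, ∃ N₀ : ℕ, ∀ (r k : ℕ), N₀ ≤ r → 2 ≤ k →
    ∀ (K : Type) [Field K] [CharZero K] (a : Matrix (Fin r) (Fin (n + r + 1)) K), SmoothDiag k a →
      ∀ (σ : K →+* ℂ) (f : ℂ → PSpace ℂ (n + r)), HolomorphicOn f Set.univ →
        (∀ z, f z ∈ complexPoints (diag k a) σ) → ImageDimLE f (n / k)

/-- `x` is the class of a function with period `2 π i` -/
def Per (x : Mer) : Prop :=
  ∃ (f : ℂ → ℂ) (hf : ∀ z, MeromorphicAt f z), x = Mer.mk f hf ∧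
    ∀ z, f (z + 2 * Real.pi * Complex.I) = f z

/-- CDIM: CORE together with the final count.  `x_0, .., x_r` are meromorphic functions, linearly
independent over `ℂ`, `2 π i` periodic, such that `Σ_i u_i x_i` is a `k`-th power for each of
many pairwise non proportional vectors `u`, at most `n` of which are orthogonal to a given nonzero
vector.  Then the transcendence degree of `ℂ(x_i / x_j)` is at most `r / k`. -/
def Stmt_CDIM : Prop :=
  ∀ r n : ℕ, ∃ N₁ : ℕ, ∀ S : Finset (Fin (r + 1) → ℂ),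
    (∀ u ∈ S, ∀ v ∈ S, u ≠ v → NonProp u v) → N₁ ≤ S.card →
    (∀ v : Fin (r + 1) → ℂ, v ≠ 0 → (S.filter fun u => ∑ i, v i * u i = 0).card ≤ n) →
    ∀ (k : ℕ) (x : Fin (r + 1) → Mer), 2 ≤ k → LinearIndependent ℂ x → (∀ i, Per (x i)) →
      (∀ u ∈ S, ∃ y : Mer, ∑ i, algebraMap ℂ Mer (u i) * x i = y ^ k) →
      ∀ (m : ℕ) (i₀ : Fin (r + 1)) (τ : Fin m → Fin (r + 1)),
        AlgebraicIndependent ℂ (fun j => x (τ j) / x i₀) → m * k ≤ r

/-! ## Linear algebra -/

/-- MIN (100 lines).  All the `r × r` minors of a smooth diagonal system are nonzero.  PROOF.  Let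
`J : Fin r → Fin (N + 1)` be injective and suppose that the square matrix `a_J` (columns `J`) is
singular.  There is `c : Fin r → K`, `c ≠ 0`, with `Σ_l a_(i, J l) c_l = 0` for all `i`
(`Matrix.exists_mulVec_eq_zero_iff`).  In the algebraic closure choose `v_(J l)` with
`v_(J l)^k = c_l` and `v_j = 0` for `j` not in the image of `J` (`k ≥ 1`; `0^k = 0`).  Then `v ≠ 0`
and `v` satisfies the equations, so the rows `(k a_ij v_j^(k-1))_j`, `i < r`, are linearly
independent.  All columns outside of `J '' supp c` vanish (`k ≥ 2`), so the `r × r` matrix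
`M = (k a_(i, J l) v_(J l)^(k-1))_(i,l)` has independent rows, `det M ≠ 0`.  But
`M = k a_J diag(v_(J l)^(k-1))` and `det a_J = 0`: contradiction. -/
def Stmt_MIN : Prop :=
  ∀ (K : Type) [Field K] [CharZero K] (r N k : ℕ) (a : Matrix (Fin r) (Fin (N + 1)) K), 2 ≤ k →
    SmoothDiag k a → ∀ J : Fin r → Fin (N + 1), Function.Injective J →
      (Matrix.of fun i l => a i (J l)).det ≠ 0

/-- GPZ (70 lines), uses MIN.  A nonzero solution `u ∈ ℂ^(n+r+1)` of the linear equations
`Σ_j σ(a_ij) u_j = 0` has at most `n` coordinates equal to zero.  PROOF.  Otherwise at most `r`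
coordinates are not zero; choose an injective `J : Fin r → Fin (n + r + 1)` whose image contains
the support (`Finset.exists_superset_card_eq`, then `orderEmbOfFin`).  `Σ_l σ(a_(i, J l)) u_(J l) =
0`, the determinant of this square matrix is `σ` of a nonzero minor (MIN, `RingHom.map_det`), so
`u_(J l) = 0` for all `l` and `u = 0`. -/
def Stmt_GPZ : Prop :=
  ∀ (K : Type) [Field K] [CharZero K] (r n k : ℕ) (a : Matrix (Fin r) (Fin (n + r + 1)) K),
    2 ≤ k → SmoothDiag k a → ∀ (σ : K →+* ℂ) (u : Fin (n + r + 1) → ℂ), u ≠ 0 →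
      (∀ i, ∑ j, σ (a i j) * u j = 0) → (Finset.univ.filter fun j => u j = 0).card ≤ n

/-- SPN (150 lines), uses GPZ.  PROOF.  The `ℂ`-span of the finitely many `z_j = y_j^k ∈ Mer` has
dimension `ρ + 1 ≥ 1` (some `y_j ≠ 0`); choose a basis among them (`exists_linearIndependent` for
sets, or `Basis` from a spanning family): `x_i = z_(τ i)`, `τ : Fin (ρ + 1) → Fin (n + r + 1)`, and
write `z_j = Σ_i u_(j i) x_i`.  Let `v ∈ ℂ^(ρ+1)`, `v ≠ 0`, and `w_j = Σ_i v_i u_(j i)`.  Then
`Σ_j σ(a_ij) w_j = Σ_l v_l (Σ_j σ(a_ij) u_(j l)) = 0`, because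
`0 = Σ_j σ(a_ij) z_j = Σ_l (Σ_j σ(a_ij) u_(j l)) x_l` and the `x_l` are independent.  And `w ≠ 0`:
`w_(τ i) = v_i` because `u_(τ i) = e_i`.  By GPZ at most `n` of the `w_j` are 0.  `ρ ≤ n`: if
`ρ ≥ n + 1` the linear conditions `Σ_i v_i u_(j i) = 0` for `n + 1` values `j` (there are
`n + r + 1` values) have a nonzero solution `v` in `ℂ^(ρ+1)` (`ρ + 1 > n + 1` unknowns), and then
`n + 1` of the `w_j` vanish. -/
def Stmt_SPN : Prop :=
  ∀ (K : Type) [Field K] [CharZero K] (r n k : ℕ) (a : Matrix (Fin r) (Fin (n + r + 1)) K),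
    2 ≤ k → SmoothDiag k a → ∀ (σ : K →+* ℂ) (y : Fin (n + r + 1) → Mer), y ≠ 0 →
      (∀ i, ∑ j, algebraMap ℂ Mer (σ (a i j)) * y j ^ k = 0) →
      ∃ (ρ : ℕ) (τ : Fin (ρ + 1) → Fin (n + r + 1)) (u : Fin (n + r + 1) → Fin (ρ + 1) → ℂ),
        ρ ≤ n ∧ LinearIndependent ℂ (fun i => y (τ i) ^ k) ∧
        (∀ j, y j ^ k = ∑ i, algebraMap ℂ Mer (u j i) * y (τ i) ^ k) ∧
        ∀ v : Fin (ρ + 1) → ℂ, v ≠ 0 →
          (Finset.univ.filter fun j => ∑ i, v i * u j i = 0).card ≤ n

/-- SEL (100 lines).  Many pairwise non proportional vectors.  PROOF.  Let `ρ ≥ 1`.  At most `n` of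
the `u_j` are 0 (take any `v ≠ 0`).  For `u_j ≠ 0` there is `v ≠ 0` with `Σ v_i u_(j i) = 0`
(`ρ + 1 ≥ 2` unknowns), hence at most `n` of the `u_l` are multiples of `u_j`.  Choose greedily, or
by induction on `N₁`: a set `S` of pairwise non proportional nonzero vectors `u_j` of maximal
cardinality; every nonzero `u_l` is a multiple of an element of `S`, so
`M ≤ n + n * S.card`.  (`NonProp u v` for nonzero non proportional vectors: `a u = b v` with `a ≠ 0`
gives `u = (b/a) v`; `a = 0` gives `b v = 0`, `b = 0`.)  The last clause: the indices `j` with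
`u_j ∈ S` and `v · u_j = 0` are at most `n`, and `S` is a set of values. -/
def Stmt_SEL : Prop :=
  ∀ (ρ n M N₁ : ℕ) (u : Fin M → Fin (ρ + 1) → ℂ), 1 ≤ ρ →
    (∀ v : Fin (ρ + 1) → ℂ, v ≠ 0 →
      (Finset.univ.filter fun j => ∑ i, v i * u j i = 0).card ≤ n) →
    n + n * N₁ < M →
    ∃ S : Finset (Fin (ρ + 1) → ℂ), (∀ v ∈ S, ∀ v' ∈ S, v ≠ v' → NonProp v v') ∧ N₁ ≤ S.card ∧
      (∀ v ∈ S, ∃ j, u j = v) ∧
      ∀ v : Fin (ρ + 1) → ℂ, v ≠ 0 → (S.filter fun w => ∑ i, v i * w i = 0).card ≤ n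

/-! ## The exponential substitution -/

/-- EXPO (100 lines).  Composition with the exponential function is an injective homomorphism of
`ℂ`-algebras `Mer → Mer` with `2 π i` periodic values.  PROOF.  For `f : ℂ → ℂ` meromorphic at every
point `f ∘ exp` is meromorphic at every point (`MeromorphicAt.comp_analyticAt`; near `z₀` the
function `exp` is analytic with nonzero derivative).  If `f` vanishes outside a discrete closed set,
so does `f ∘ exp`: for every `z₀`, `f w = 0` for all `w ≠ exp z₀` near `exp z₀`, and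
`exp z ≠ exp z₀` for all `z ≠ z₀` near `z₀` (`HasStrictDerivAt` / local injectivity of `exp`).  So
`f ↦ f ∘ exp` passes to the quotient `MerFun ⧸ MerIdeal` (`Ideal.Quotient.liftₐ` or use `Mer.mk`
and `Mer.mk_eq_mk`, `Mer.mk_add`, `Mer.mk_mul`).  A ring homomorphism of fields is injective. -/
def Stmt_EXPO : Prop :=
  ∃ φ : Mer →ₐ[ℂ] Mer, ∀ x, Per (φ x)

/-! ## From `x` to `y` -/

/-- HOMR (80 lines).  If nonzero elements `q_0, .., q_(m+1)` of `Mer` satisfy no nontrivial
homogeneous relation over `ℂ`, then `q_1 / q_0, .., q_(m+1) / q_0` are algebraically independent.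
PROOF.  Suppose `G(q_1/q_0, ..) = 0` with `G ≠ 0` of total degree `e`; the homogenisation
`P = Σ_μ G_μ X_0^(e - |μ|) Π X_(i+1)^(μ_i)` is a nonzero form of degree `e` (distinct monomials of
`G` give distinct monomials of `P`) and `P(q) = q_0^e G(q_1/q_0, ..) = 0`. -/
def Stmt_HOMR : Prop :=
  ∀ (m : ℕ) (q : Fin (m + 2) → Mer), q 0 ≠ 0 →
    (∀ (e : ℕ) (P : MvPolynomial (Fin (m + 2)) ℂ), P ≠ 0 → P.IsHomogeneous e → aeval q P ≠ 0) →
    AlgebraicIndependent ℂ (fun j : Fin (m + 1) => q j.succ / q 0)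

/-- TRD (120 lines).  Let `F = ℂ(t_1, .., t_s) ⊆ Mer` (`IntermediateField.adjoin ℂ (range t)` or
`Algebra.adjoin`) and let `p_1, .., p_m ∈ Mer` be algebraically independent over `ℂ` with
`p_j^k ∈ F`, `k ≥ 1`.  Then `m` of the `t_i` are algebraically independent over `ℂ`.  PROOF.
Mathlib `AlgebraicIndependent.matroid ℂ Mer`: the `p_j` are algebraic over `F`, so they are in the
closure of `range t`; an independent set contained in the closure of `range t` has at most as many
elements as a basis of `range t` (`Matroid.IsBasis`, `encard`/`eRk` monotone); a basis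
`B ⊆ range t` of `range t` has therefore at least `m` elements; take `m` of them and choose
indices. -/
def Stmt_TRD : Prop :=
  ∀ (s m k : ℕ) (t : Fin s → Mer) (p : Fin m → Mer), 1 ≤ k → AlgebraicIndependent ℂ p →
    (∀ j, p j ^ k ∈ IntermediateField.adjoin ℂ (Set.range t)) →
    ∃ ι : Fin m → Fin s, AlgebraicIndependent ℂ (fun j => t (ι j))

/-- MREL (60 lines).  A homogeneous relation between the meromorphic coordinates holds for the
homogeneous coordinates of `f` at every point.  PROOF.  `f` is holomorphic: near `z₀` there are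
holomorphic homogeneous coordinates `g` without common zero (`HolomorphicOn`).  For `z ≠ z₀` near
`z₀`: `(f z).rep j = c φ_j(z)` and `(f z).rep = c' g(z)` with `c, c' ≠ 0`, and `P(φ_s(z)) = 0` (from
`mer_eval₂_eq_zero`-like computation: `aeval` of classes is the class of `aeval`; restrict to the
variables `s i` by `MvPolynomial.rename s`), so `P(g_s(z)) = 0` (homogeneous); by continuity
`P(g_s(z₀)) = 0`, hence `P((f z₀).rep ∘ s) = 0`. -/
def Stmt_MREL : Prop :=
  ∀ (N : ℕ) (f : ℂ → PSpace ℂ N) (φ : Fin (N + 1) → ℂ → ℂ) (hφ : ∀ j z, MeromorphicAt (φ j) z),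
    HolomorphicOn f Set.univ →
    (∀ z₀, ∀ᶠ z in nhdsWithin z₀ {z₀}ᶜ, ∃ c : ℂ, c ≠ 0 ∧ ∀ j, (f z).rep j = c * φ j z) →
    ∀ (m e : ℕ) (s : Fin m → Fin (N + 1)) (P : MvPolynomial (Fin m) ℂ), P.IsHomogeneous e →
      aeval (fun i => Mer.mk (φ (s i)) (hφ (s i))) P = 0 →
      ∀ z, eval (fun i => (f z).rep (s i)) P = 0

/-- ONE (100 lines), uses CDIM SPN SEL EXPO HOMR TRD.  The theorem for points with values in `Mer`:
the coordinates `y_(s 0), .., y_(s (m+1))` satisfy a nontrivial homogeneous relation if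
`n < (m + 1) k`.  PROOF.  Let `N₁` be the maximum over `ρ ≤ n` of the numbers of CDIM for
`(ρ, n)`; `N₀ = n + n * N₁ + 1`.  Replace `y` by `φ ∘ y` with `φ` from EXPO (an injective
homomorphism over `ℂ`: the equations and the hypothesis that there is no relation are preserved,
`aeval (φ ∘ y) P = φ (aeval y P)`), so we may assume that all the `y_j` are `Per` (powers of
periodic elements are periodic).  Suppose there is no relation.  Then all `y_(s i) ≠ 0` (the
relation `X_i`), `y ≠ 0`; by HOMR the `m + 1` quotients `p_j = y_(s (j+1)) / y_(s 0)` are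
algebraically independent.  Take `ρ, τ, u` from SPN and `x_i = y_(τ i)^k`.  If `ρ = 0` all the
`p_j^k = y_(s (j+1))^k / y_(s 0)^k` are constants (`= u_(s(j+1)) 0 / u_(s 0) 0`): an algebraically
independent family has no algebraic member: contradiction (`m + 1 ≥ 1`).  If `ρ ≥ 1` take `S` from
SEL (`M = n + r + 1`).  `p_j^k = (Σ u x) / (Σ u x)` is in the field generated by the
`t_i = x_i / x_0`, so by TRD there is `ι` with `x_(ι j) / x_0`, `j ≤ m`, algebraically independent,
and CDIM gives `(m + 1) k ≤ ρ ≤ n`: contradiction. -/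
def Stmt_ONE : Prop :=
  ∀ n : ℕ, ∃ N₀ : ℕ, ∀ (r k : ℕ), N₀ ≤ r → 2 ≤ k →
    ∀ (K : Type) [Field K] [CharZero K] (a : Matrix (Fin r) (Fin (n + r + 1)) K), SmoothDiag k a →
      ∀ (σ : K →+* ℂ) (y : Fin (n + r + 1) → Mer), y ≠ 0 →
      (∀ i, ∑ j, algebraMap ℂ Mer (σ (a i j)) * y j ^ k = 0) →
      ∀ (m : ℕ) (s : Fin (m + 2) → Fin (n + r + 1)), n < (m + 1) * k →
        ∃ (e : ℕ) (P : MvPolynomial (Fin (m + 2)) ℂ), P ≠ 0 ∧ P.IsHomogeneous e ∧
          aeval (fun i => y (s i)) P = 0

/-- FIN1 (60 lines), uses ONE MREL.  PROOF of `Stmt_M1`: `exists_mer_of_curve` (DQ/Hol2.lean) with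
`S = diag k a` (its elements are homogeneous of degree `k`) gives `φ`; the relations of `diag k a`
are `Σ_j σ(a_ij) y_j^k = 0` for `y_j = Mer.mk (φ j)`; `y ≠ 0` because one of the `y_j` is 1;
`m = n / k` satisfies `n < (m + 1) k` (`Nat.lt_succ_mul_div..`, `Nat.lt_mul_div_succ`). -/
def Stmt_FIN1 : Prop := Stmt_M1

end Pool.ThmM0
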