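import Pool.Agent.Work.MP_f82ddf_M0.Interface
import Pool.Agent.Work.MP_f82ddf_M.Terminal2
import Pool.Agent.Work.MP_f82ddf_M5.Stmts

set_option autoImplicit false

/-! # THEOREM M (MP_f82ddf_nt), part P0, second file: CORE for hypersurface data, statement (3)

(3): for every `n` there is `D` such that every smooth complete intersection `X` of dimension `n` of
diagonal forms of degree `k ≥ 2` for which the linear forms `y_j^k` on the space of solutions, as
points of the dual space, do not lie on a common hypersurface of degree at most `D`, is Kobayashi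
hyperbolic for every embedding of the ground field. -/

namespace Pool.ThmM0

open MvPolynomial Finset Pool.Agent.Work.MP_f82ddf_nt Pool.Agent.Work.MP_f82ddf_nt.DQ Pool.ThmM

/-- COREH (helper71): CORE for given hypersurface data. -/
def Stmt_COREH : Prop :=
  ∀ r n w d : ℕ, ∃ β : ℕ, ∀ (Q : MvPolynomial (Fin (w + 2)) ℂ)
      (A : Fin (r + 1) → MvPolynomial (Fin (w + 2)) ℂ) (T : Finset (Fin (r + 1) → ℂ))
      (lift : (Fin (r + 1) → ℂ) → (Fin (w + 2) → ℂ)),
    HypData r w d Q A T lift → β ≤ T.card →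
    (∀ (e : ℕ) (f : MvPolynomial (Fin (w + 2)) ℂ), e ≤ β → f.IsHomogeneous e →
        (∀ u ∈ T, eval (lift u) f = 0) → Q ∣ f) →
    (∀ u ∈ T, ∀ v ∈ T, u ≠ v → NonProp u v) →
    (∀ v : Fin (r + 1) → ℂ, v ≠ 0 → (T.filter fun u => ∑ i, v i * u i = 0).card ≤ n) →
    ∀ (k : ℕ) (x : Fin (r + 1) → Mer), 2 ≤ k → LinearIndependent ℂ x → (∀ i, Per (x i)) →
      (∀ u ∈ T, ∃ y : Mer, ∑ i, algebraMap ℂ Mer (u i) * x i = y ^ k) →
      ∃ (c : Mer) (Fix : MvPolynomial (Fin 2 × Fin (w + 2)) ℂ)
        (Psi : MvPolynomial (Fin 2 × Fin (w + 2)) Mer),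
        Pool.Agent.Work.MP_f82ddf_M5.chow d d (map (algebraMap ℂ Mer) Q)
            (Pool.Agent.Work.MP_f82ddf_M5.comb (algebraMap ℂ Mer) A x) =
          C c * map (algebraMap ℂ Mer) Fix * Psi ^ k

/-- CDM (100 lines), uses COREH T3 P5 (`Pool.ThmM.Stmt_T3`,
`Pool.Agent.Work.MP_f82ddf_M5.Stmt_P5`).  PROOF of `Stmt_CDIM`.  Given `r, n` apply T3 to
`β(w, d) = max (n + 1) (the number of COREH for r n w d)`.  The set `T ⊆ S` inherits the
conditions on `S`.  `Data (w + 2) r d d Q A`: if `Q ∣ Σ y_i A_i` and `y ≠ 0`, evaluate at the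
`n + 1 ≤ T.card` points `lift u`: `0 = Σ y_i A_i(lift u) = c_u Σ y_i u_i`, so more than `n` elements
of `T` are orthogonal to `y`: contradiction.  COREH gives `c, Fix, Psi`, and P5 with `M = Mer` gives
`m * k ≤ r` (`x i₀ ≠ 0` by linear independence). -/
def Stmt_CDM : Prop := Stmt_CDIM

/-- CH1 (100 lines).  The Chow form of two linear forms.  PROOF.  `lineAt` of `X_last` is
`C b₁_last * X + C b₂_last` and `lineAt` of `Σ x_i X_i` (castSucc variables) is
`C X(b₁) * X + C X(b₂)`, `X(b) = Σ x_i b_i`.  The resultant of `p₁ s + p₀` and `q₁ s + q₀` with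
formal degrees 1, 1 is the determinant of the 2 × 2 Sylvester matrix, `± (p₁ q₀ - p₀ q₁)` (unfold
`Polynomial.resultant`, `Polynomial.sylvester`, `Matrix.det_fin_two`).  So the coefficient of the
monomial `b₁_last * b₂_i` is `± x_i`, and every variable occurs with exponent at most 1. -/
def Stmt_CH1 : Prop :=
  ∀ (r : ℕ) (M : Type) [Field M] [Algebra ℂ M] (x : Fin (r + 1) → M),
    ∃ ε : M, ε ≠ 0 ∧
      (∀ i : Fin (r + 1),
        coeff (Finsupp.single ((0 : Fin 2), Fin.last (r + 1)) 1 +
            Finsupp.single ((1 : Fin 2), i.castSucc) 1)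
          (Pool.Agent.Work.MP_f82ddf_M5.chow 1 1
            (map (algebraMap ℂ M) (X (Fin.last (r + 1)) : MvPolynomial (Fin (r + 2)) ℂ))
            (Pool.Agent.Work.MP_f82ddf_M5.comb (algebraMap ℂ M) (fun i => X i.castSucc) x)) =
          ε * x i) ∧
      ∀ p, degreeOf p (Pool.Agent.Work.MP_f82ddf_M5.chow 1 1
            (map (algebraMap ℂ M) (X (Fin.last (r + 1)) : MvPolynomial (Fin (r + 2)) ℂ))
            (Pool.Agent.Work.MP_f82ddf_M5.comb (algebraMap ℂ M) (fun i => X i.castSucc) x)) ≤ 1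

/-- CPW (60 lines).  A nonzero polynomial over a field `M ⊇ ℂ` with all the partial degrees at most
1 which is `c * Fix * Psi^k`, `k ≥ 2`, `Fix` over `ℂ`, has all its coefficients in `c' ℂ` for one
`c' ∈ M`.  PROOF.  `degreeOf p` is additive on products of nonzero polynomials over a domain
(`MvPolynomial.degreeOf_mul_eq` or `degreeOf_eq_natDegree` ...), so `k * degreeOf p Psi ≤ 1`,
`degreeOf p Psi = 0` for all `p`, `Psi = C ψ` is a constant; take `c' = c * ψ^k`. -/
def Stmt_CPW : Prop :=
  ∀ (ι M : Type) [Field M] [Algebra ℂ M] (P Psi : MvPolynomial ι M) (Fix : MvPolynomial ι ℂ)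
    (c : M) (k : ℕ), 2 ≤ k → P ≠ 0 → (∀ p, degreeOf p P ≤ 1) →
    P = C c * map (algebraMap ℂ M) Fix * Psi ^ k →
    ∃ c' : M, ∀ μ, ∃ z : ℂ, coeff μ P = c' * algebraMap ℂ M z

/-- LGN (150 lines), uses COREH CH1 CPW.  Nodes which do not lie on a hypersurface of low degree.
PROOF.  `β` = the number of COREH for `r n w d = r n r 1` (at least 1).  Put `w = r`, `d = 1`,
`Q = X_last`, `A_i = X_(castSucc i)`, `T = S`, `lift u = Fin.snoc u 0`.  `HypData`: `Q` is
irreducible (`MvPolynomial.X_irreducible`-like / prime), `LastMonic` with `q = 0`, the derivative is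
1, `prop` with `c = 1`, `w ≤ r`, `1 ≤ w`.  DIVISIBILITY: let `f` be a form of degree `e ≤ β`
vanishing at the `snoc u 0`.  `G = f(X_0, .., X_r, 0)` is a form of degree `e` vanishing on `S`, so
`G = 0`, so every monomial of `f` contains `X_last`, `X_last ∣ f`
(`MvPolynomial.X_dvd_iff_modMonomial_eq_zero` or the kernel of the substitution).  CARDINALITY
`β ≤ S.card`: otherwise for `u ∈ S` choose a linear form `ℓ_u ≠ 0` in the `r + 1 ≥ 2` variables with
`ℓ_u(u) = 0`; the product over `S` is a nonzero form of degree `S.card ≤ β` vanishing on `S`.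
COREH: `chow 1 1 = C c * map Fix * Psi^k`.  By CH1 its coefficients include `ε x_i`, not 0, and its
partial degrees are at most 1; CPW: `ε x_i = c' z_i` for all `i`, `z_i ∈ ℂ`.  `z_0 ≠ 0` and
`z_1 x_0 - z_0 x_1 = 0` contradicts the linear independence (`r ≥ 1`). -/
def Stmt_LGN : Prop :=
  ∀ r n : ℕ, 1 ≤ r → ∃ β : ℕ, ∀ S : Finset (Fin (r + 1) → ℂ),
    (∀ u ∈ S, ∀ v ∈ S, u ≠ v → NonProp u v) →
    (∀ v : Fin (r + 1) → ℂ, v ≠ 0 → (S.filter fun u => ∑ i, v i * u i = 0).card ≤ n) →
    (∀ (e : ℕ) (G : Pr r), e ≤ β → G.IsHomogeneous e → G ≠ 0 → ∃ u ∈ S, eval u G ≠ 0) →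
    ∀ (k : ℕ) (x : Fin (r + 1) → Mer), 2 ≤ k → LinearIndependent ℂ x → (∀ i, Per (x i)) →
      (∀ u ∈ S, ∃ y : Mer, ∑ i, algebraMap ℂ Mer (u i) * x i = y ^ k) → False

/-- The points `l_j` of the dual of the solution space of `a`: the columns of the matrix `l` form a
basis of the space of solutions `u` of `Σ_j a_ij u_j = 0` (its dimension is `n + 1`), and `l j` is
the `j`-th coordinate function in this basis. -/
def IsParam {K : Type*} [Field K] {r n : ℕ} (a : Matrix (Fin r) (Fin (n + r + 1)) K)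
    (l : Fin (n + r + 1) → Fin (n + 1) → K) : Prop :=
  (∀ i c, ∑ j, a i j * l j c = 0) ∧ LinearIndependent K (fun (c : Fin (n + 1)) j => l j c)

/-- `l` does not lie on a hypersurface of degree at most `D`: no nonzero form of degree at most `D`
vanishes at all the points `l j`. -/
def NoHypersurface {K : Type*} [Field K] {m n : ℕ} (D : ℕ) (l : Fin m → Fin (n + 1) → K) : Prop :=
  ∀ (e : ℕ) (G : MvPolynomial (Fin (n + 1)) K), e ≤ D → G.IsHomogeneous e → G ≠ 0 →
    ∃ j, eval (l j) G ≠ 0

/-- NHC (80 lines).  `NoHypersurface` passes to a field extension.  PROOF.  Let `G` be a nonzero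
form of degree `e` over `L` vanishing at all the `σ(l_j)`.  The linear system
`Σ_μ g_μ l_j^μ = 0` (`j < m`, `μ` of degree `e`) has over `K` only the zero solution, so its matrix
has a nonzero minor of full size, whose image under `σ` is not zero; hence only the zero solution
over `L`.  (Or: choose a `K`-linear functional; or a `K`-basis of the span of the coefficients of
`G` in `L`: `G = Σ b_i G_i` with `G_i` forms over `K`, `b_i` linearly independent over `K`;
`G(σ l_j) = Σ b_i σ(G_i(l_j)) = 0` gives `G_i(l_j) = 0`, so `G_i = 0`.) -/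
def Stmt_NHC : Prop :=
  ∀ (K L : Type) [Field K] [Field L] (σ : K →+* L) (m n D : ℕ) (l : Fin m → Fin (n + 1) → K),
    NoHypersurface D l → NoHypersurface D (fun j c => σ (l j c))

/-- PAR (120 lines), uses GPZ.  The nodes `u_j` are linear images of the `σ(l_j)`.  PROOF.  The
space `W` of solutions `w ∈ ℂ^(n+r+1)` of `Σ_j σ(a_ij) w_j = 0` has dimension at most `n + 1`: the
projection to the first `n + 1` coordinates (any `n + 1` coordinates) is injective on `W` by GPZ (a
nonzero solution has at most `n` zero coordinates).  The `n + 1` columns of `σ(l)` are in `W` and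
independent over `ℂ` (independence is preserved by `σ`: a nonzero minor), so they are a basis of
`W`.  The column `(u_(j i))_j` is in `W`, hence `u_(j i) = Σ_c σ(l_(j c)) B_(c i)`. -/
def Stmt_PAR : Prop :=
  ∀ (K : Type) [Field K] [CharZero K] (r n k : ℕ) (a : Matrix (Fin r) (Fin (n + r + 1)) K),
    2 ≤ k → SmoothDiag k a → ∀ (σ : K →+* ℂ) (l : Fin (n + r + 1) → Fin (n + 1) → K),
      IsParam a l → ∀ (ρ : ℕ) (u : Fin (n + r + 1) → Fin (ρ + 1) → ℂ),
        (∀ i c, ∑ j, σ (a i j) * u j c = 0) →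
        ∃ B : Matrix (Fin (n + 1)) (Fin (ρ + 1)) ℂ, ∀ j i, u j i = ∑ c, σ (l j c) * B c i

/-- PUL (60 lines).  If `u_j = l_j B` (row vectors) and the linear map `X ↦ X B` has image
`ℂ^(ρ+1)` (its columns are independent), and no nonzero form of degree at most `D` vanishes at all
the `l_j`, then none vanishes at all the `u_j`.  PROOF.  Let `G` be a form of degree `e` vanishing
at the `u_j`; `G'(X) = G(X B)` (`aeval (fun i => Σ_c C (B c i) * X c) G`) is a form of degree `e`
with `G'(l_j) = G(u_j) = 0`; `G' ≠ 0`: choose a point `p` with `G(p) ≠ 0` and `q` with `q B = p`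
(surjectivity of `B.vecMul` from the independence of the columns:
`Matrix.vecMul` surjective iff the columns are independent). -/
def Stmt_PUL : Prop :=
  ∀ (m n ρ D : ℕ) (l : Fin m → Fin (n + 1) → ℂ) (B : Matrix (Fin (n + 1)) (Fin (ρ + 1)) ℂ),
    NoHypersurface D l → LinearIndependent ℂ (fun (i : Fin (ρ + 1)) c => B c i) →
    NoHypersurface D (fun j i => ∑ c, l j c * B c i)

/-- GEN (150 lines), uses SPN EXPO LGN NHC PAR PUL.  PROOF.  `D` = the maximum over `1 ≤ ρ ≤ n` of
the numbers `β` of LGN for `(ρ, n)` (at least 1).  As in ONE replace `y` by `φ ∘ y` with `φ` from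
EXPO: `φ` is an injective homomorphism over `ℂ`, and `φ(y_j) = z φ(y_i)` with `z ∈ ℂ` gives
`y_j = z y_i`.  Take `ρ, τ, u, x_i = y_(τ i)^k` from SPN.  CASE `ρ = 0`: if `y_i ≠ 0`, then
`y_j^k = u_(j 0) x_0` and `y_i^k = u_(i 0) x_0 ≠ 0`, so `(y_j / y_i)^k` is a constant, and `y_j/y_i`
is algebraic over `ℂ`, hence a constant (`ℂ` is algebraically closed in every field extension that
is a domain: `IsAlgClosed`; or factor `T^k - c` over `ℂ`).  CASE `ρ ≥ 1`: let `S` be a maximal set
of pairwise `NonProp` vectors among the nonzero `u_j` (so every `u_j` is a multiple of an element of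
`S`); at most `n` elements of `S` are orthogonal to a nonzero `v` (distinct elements of `S` come
from distinct `j`, SPN).  The columns of `u` satisfy the equations `Σ_j σ(a_ij) u_(j c) = 0` (as in
SPN: independence of the `x_i`) and are linearly independent (`u_(τ i) = e_i` by uniqueness of
coordinates, or: a relation `Σ v_i u_(j i) = 0` for all `j` contradicts the last clause of SPN since
`n + r + 1 > n`).  PAR: `u_j = σ(l_j) B`, the columns of `B` are independent because those of `u`
are.  NHC and PUL: no nonzero form of degree `≤ D` vanishes at all the `u_j`, hence none at all the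
elements of `S` (a form of degree `e ≥ 1` vanishing on `S` vanishes at all multiples, also at
`u_j = 0`; a form of degree 0 is a constant and does not vanish on `S`, which is not empty; if `S`
were empty all the `u_j` would be 0).  LGN: contradiction. -/
def Stmt_GEN : Prop :=
  ∀ n : ℕ, ∃ D : ℕ, ∀ (r k : ℕ), 2 ≤ k →
    ∀ (K : Type) [Field K] [CharZero K] (a : Matrix (Fin r) (Fin (n + r + 1)) K), SmoothDiag k a →
      ∀ l : Fin (n + r + 1) → Fin (n + 1) → K, IsParam a l → NoHypersurface D l →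
      ∀ (σ : K →+* ℂ) (y : Fin (n + r + 1) → Mer),
      (∀ i, ∑ j, algebraMap ℂ Mer (σ (a i j)) * y j ^ k = 0) →
      ∀ i j, y i ≠ 0 → ∃ z : ℂ, y j = algebraMap ℂ Mer z * y i

/-- THEOREM M, PART (3). -/
def Stmt_M3 : Prop :=
  ∀ n : ℕ, ∃ D : ℕ, ∀ (r k : ℕ), 2 ≤ k →
    ∀ (K : Type) [Field K] [CharZero K] (a : Matrix (Fin r) (Fin (n + r + 1)) K), SmoothDiag k a →
      ∀ l : Fin (n + r + 1) → Fin (n + 1) → K, IsParam a l → NoHypersurface D l →
      ∀ σ : K →+* ℂ, KobayashiHyperbolic (complexPoints (diag k a) σ)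

/-- FIN3 (50 lines), uses GEN.  PROOF of `Stmt_M3`.  If `X_σ` is not hyperbolic there is a
nonconstant entire curve (`exists_entire_curve`, Brody/Brody.lean); `exists_mer_of_curve` gives
`y_j = Mer.mk (φ j) (hφ j)`, one of them 1, and one of them not a constant, against GEN with `i` the
index of the coordinate 1. -/
def Stmt_FIN3 : Prop := Stmt_M3

/-- TD1 (60 lines), uses ONE.  PROOF.  `m = 1`: `y_(i₀), y_i, y_j` satisfy a homogeneous relation
`P ≠ 0` of degree `e`; `G(X, Y) = P(1, X, Y)` is not zero (distinct monomials of the form `P` have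
distinct exponents of the last two variables) and
`G(y_i/y_(i₀), y_j/y_(i₀)) = y_(i₀)^(-e) P(y_(i₀), y_i, y_j) = 0`. -/
def Stmt_TD1 : Prop :=
  ∀ n : ℕ, ∃ N₀ : ℕ, ∀ (r k : ℕ), N₀ ≤ r → 2 ≤ k → n < 2 * k →
    ∀ (K : Type) [Field K] [CharZero K] (a : Matrix (Fin r) (Fin (n + r + 1)) K), SmoothDiag k a →
      ∀ (σ : K →+* ℂ) (y : Fin (n + r + 1) → Mer), y ≠ 0 →
      (∀ i, ∑ j, algebraMap ℂ Mer (σ (a i j)) * y j ^ k = 0) →
      ∀ i₀ i j, y i₀ ≠ 0 → ¬ AlgebraicIndependent ℂ ![y i / y i₀, y j / y i₀]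

end Pool.ThmM0
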