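import Pool.Agent.Work.MP_f82ddf_M0.Interface3
import Pool.Agent.Work.MP_f82ddf_cl.Interface

set_option autoImplicit false

/-! # THEOREM M (MP_f82ddf_nt), part P0, third file: varieties with a finite morphism to a diagonal
complete intersection, final statement -/

namespace Pool.ThmM0

open MvPolynomial Finset Pool.Agent.Work.MP_f82ddf_nt Pool.Agent.Work.MP_f82ddf_nt.DQ Pool.ThmM

/-- The forms `h j`, all of the same degree `e ≥ 1`, have no common zero on the projective variety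
`X` given by `S` and map it to the complete intersection of the diagonal forms
`∑ j, a i j * y j ^ k`: they define a finite morphism from `X` to this complete intersection
(conditions on the points over the algebraic closure). -/
def FiniteTo {K : Type*} [Field K] {r N m : ℕ} (k : ℕ) (a : Matrix (Fin r) (Fin (N + 1)) K)
    (S : Set (MvPolynomial (Fin (m + 1)) K)) (e : ℕ)
    (h : Fin (N + 1) → MvPolynomial (Fin (m + 1)) K) : Prop :=
  1 ≤ e ∧ (∀ j, (h j).IsHomogeneous e) ∧
    ∀ v : Fin (m + 1) → AlgebraicClosure K, (∀ F ∈ S, aeval v F = 0) →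
      (∀ i, ∑ j, algebraMap K (AlgebraicClosure K) (a i j) * aeval v (h j) ^ k = 0) ∧
      ((∀ j, aeval v (h j) = 0) → v = 0)

/-- `x` is a point of `X` with values in `Mer` -/
def OnMer {K : Type} [Field K] {m : ℕ} (σ : K →+* ℂ) (S : Set (MvPolynomial (Fin (m + 1)) K))
    (x : Fin (m + 1) → Mer) : Prop :=
  ∀ F ∈ S, eval₂ ((algebraMap ℂ Mer).comp σ) x F = 0

/-- the value of a form over `K` at a point with values in `Mer` -/
noncomputable def vm {K : Type} [Field K] {m : ℕ} (σ : K →+* ℂ) (x : Fin (m + 1) → Mer)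
    (F : MvPolynomial (Fin (m + 1)) K) : Mer := eval₂ ((algebraMap ℂ Mer).comp σ) x F

/-- NUS (60 lines).  A form (or any polynomial) `G` which vanishes at all the zeros of `S` over the
algebraic closure vanishes at the points with values in `Mer`.  PROOF.  Hilbert's Nullstellensatz
(`MvPolynomial.vanishingIdeal_zeroLocus_eq_radical` in the version used in `exists_over_closure` of
MP_f82ddf_nt/Closure.lean): some power `G^t` is in the ideal generated by `S`; evaluate at `x`. -/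
def Stmt_NUS : Prop :=
  ∀ (K : Type) [Field K] (m : ℕ) (S : Set (MvPolynomial (Fin (m + 1)) K))
    (G : MvPolynomial (Fin (m + 1)) K),
    (∀ v : Fin (m + 1) → AlgebraicClosure K, (∀ F ∈ S, aeval v F = 0) → aeval v G = 0) →
    ∀ (σ : K →+* ℂ) (x : Fin (m + 1) → Mer), OnMer σ S x → vm σ x G = 0

/-- FMN (200 lines), the finite morphism.  PROOF.  By the Nullstellensatz (zeros over the algebraic
closure of `S ∪ {h_j}` are only `0`) there is `t ≥ 1` with `X_i^t ∈ (S, h_0, .., h_N)` for all `i`;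
taking homogeneous components (the elements of `S` and the `h_j` are homogeneous) every form of
degree `T ≥ T₀ := (m + 1) t` is `Σ_(F ∈ S) b_F F + Σ_j g_j h_j` with forms `g_j` of degree `T - e`.
Let `B` be the `K[Y_0, .., Y_N]`-module `K[X]/(S)` (`Y_j` acts as `h_j`); by induction on the degree
it is generated by the monomials of degree `< T₀`: finitely many generators.  So every `X_i` is
integral over `K[h_0, .., h_N]` modulo `(S)` (`Module.Finite` implies integral, or
Cayley-Hamilton): `X_i^q + Σ_(l < q) c_l(h) X_i^l ∈ (S)`; taking the component of degree `q` we may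
assume that `c_l` is a form in `Y` with `e * deg c_l = q - l` (`c_l = 0` if `e` does not divide
`q - l`).  Evaluate at `x`: `x_i^q + Σ_l c_l(y) x_i^l = 0`.  If `y = 0` then `x_i^q = 0` for all `i`,
so `x = 0`, excluded; take `j₀` with `y_(j₀) ≠ 0`.  Put `w_i = x_i^e / y_(j₀)`: it is enough to
show that `w_i` is algebraic over `A = Algebra.adjoin ℂ {y_j / y_(j₀)}` for every `i`, because then
`(x_i / x_(i₀))^e = w_i / w_(i₀)` is algebraic, and so is `x_i / x_(i₀)`.  In an algebraic closure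
`Ω` of `Mer` let `η^e = y_(j₀)` and divide the equation by `η^q`:
`(x_i/η)^q + Σ_l (c_l(y) / η^(q-l)) (x_i/η)^l = 0`, and `c_l(y)/η^(q-l) = c_l(y) / y_(j₀)^((q-l)/e) =
c_l(y / y_(j₀)) ∈ A`.  So `x_i/η` is integral over `A` in `Ω`, hence so is its `e`-th power `w_i`. -/
def Stmt_FMN : Prop :=
  ∀ (K : Type) [Field K] (m N e : ℕ) (S : Set (MvPolynomial (Fin (m + 1)) K))
    (h : Fin (N + 1) → MvPolynomial (Fin (m + 1)) K),
    (∀ F ∈ S, ∃ d, F.IsHomogeneous d) → 1 ≤ e → (∀ j, (h j).IsHomogeneous e) →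
    (∀ v : Fin (m + 1) → AlgebraicClosure K, (∀ F ∈ S, aeval v F = 0) →
      (∀ j, aeval v (h j) = 0) → v = 0) →
    ∀ (σ : K →+* ℂ) (x : Fin (m + 1) → Mer), OnMer σ S x → x ≠ 0 →
      ∃ j₀, vm σ x (h j₀) ≠ 0 ∧ ∀ i i₀, x i₀ ≠ 0 →
        IsAlgebraic (Algebra.adjoin ℂ (Set.range fun j => vm σ x (h j) / vm σ x (h j₀)))
          (x i / x i₀)

/-- DHO (80 lines).  A nontrivial homogeneous relation between `q_0 ≠ 0, q_1, .., q_(M+1)` makes the
quotients `q_(j+1) / q_0` algebraically dependent.  PROOF.  `G = P(1, X_0, .., X_M)` is not zero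
(the case `M = 1` is typed in B_TD1.lean: `P * X_0` vanishes at all points over `ℂ` if `G = 0`) and
`G(q_1/q_0, ..) = q_0^(-e) P(q) = 0`. -/
def Stmt_DHO : Prop :=
  ∀ (M e : ℕ) (q : Fin (M + 2) → Mer) (P : MvPolynomial (Fin (M + 2)) ℂ), q 0 ≠ 0 → P ≠ 0 →
    P.IsHomogeneous e → aeval q P = 0 →
    ¬ AlgebraicIndependent ℂ (fun j : Fin (M + 1) => q j.succ / q 0)

/-- TRF (80 lines), uses HOMR DHO.  Transfer of the dimension.  PROOF.  Suppose that `x ∘ s` satisfies
no relation.  Then `x_(s 0) ≠ 0` (the relation `X_0` of degree 1) and by HOMR the `M + 1` quotients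
`x_(s (j+1)) / x_(s 0)` are algebraically independent.  They are algebraic over
`Algebra.adjoin ℂ (range t)`, `t_j = y_j / y_(j₀)`, so `M + 1` of the `t_j` are algebraically
independent (the private lemma `TRD_main` of B_TRD.lean: copy it): `y_(ι 0)/y_(j₀), ..`.  But
`y_(j₀), y_(ι 0), .., y_(ι M)` satisfy a homogeneous relation: contradiction by DHO. -/
def Stmt_TRF : Prop :=
  ∀ (m N M : ℕ) (x : Fin (m + 1) → Mer) (y : Fin (N + 1) → Mer) (j₀ : Fin (N + 1)), y j₀ ≠ 0 →
    (∀ i i₀, x i₀ ≠ 0 →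
      IsAlgebraic (Algebra.adjoin ℂ (Set.range fun j => y j / y j₀)) (x i / x i₀)) →
    (∀ s : Fin (M + 2) → Fin (N + 1), ∃ (e : ℕ) (P : MvPolynomial (Fin (M + 2)) ℂ), P ≠ 0 ∧
      P.IsHomogeneous e ∧ aeval (fun i => y (s i)) P = 0) →
    ∀ s : Fin (M + 2) → Fin (m + 1), ∃ (e : ℕ) (P : MvPolynomial (Fin (M + 2)) ℂ), P ≠ 0 ∧
      P.IsHomogeneous e ∧ aeval (fun i => x (s i)) P = 0

/-- CST (40 lines).  If all the `y_j / y_(j₀)` are constants, so are the `x_i / x_(i₀)`: they are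
algebraic over `Algebra.adjoin ℂ (range ..)` ⊆ (the image of) `ℂ`, hence algebraic over `ℂ`, hence
constants (`IsAlgClosed.algebraMap_bijective_of_isIntegral`-like; or
`IsAlgClosed.exists_eq_mul_self` style factorisation of the minimal polynomial). -/
def Stmt_CST : Prop :=
  ∀ (N : ℕ) (y : Fin (N + 1) → Mer) (j₀ : Fin (N + 1)), y j₀ ≠ 0 →
    (∀ j, ∃ z : ℂ, y j = algebraMap ℂ Mer z * y j₀) → ∀ q : Mer,
    IsAlgebraic (Algebra.adjoin ℂ (Set.range fun j => y j / y j₀)) q →
    ∃ z : ℂ, q = algebraMap ℂ Mer z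

/-- Any `M + 2` coordinates of every point of `X_σ` over `Mer`
satisfy a nontrivial homogeneous relation. -/
def DimMer {K : Type} [Field K] {m : ℕ} (S : Set (MvPolynomial (Fin (m + 1)) K)) (M : ℕ) : Prop :=
  ∀ (σ : K →+* ℂ) (x : Fin (m + 1) → Mer), OnMer σ S x →
    ∀ s : Fin (M + 2) → Fin (m + 1), ∃ (e : ℕ) (P : MvPolynomial (Fin (M + 2)) ℂ), P ≠ 0 ∧
      P.IsHomogeneous e ∧ aeval (fun i => x (s i)) P = 0

/-- DMX (60 lines), uses ONE NUS FMN TRF.  PROOF.  Take `N₀` from ONE.  `x = 0`: the relation `X_0`.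
Otherwise `y_j = h_j(x)`: `Σ_j σ(a_ij) y_j^k = 0` by NUS for `G = Σ_j a_ij h_j^k`
(`vm` is multiplicative: it is `eval₂Hom`), FMN gives `j₀` and the algebraicity, `y ≠ 0`, ONE with
`M = n / k` gives the relations between the `y_(s i)`, and TRF transfers them. -/
def Stmt_DMX : Prop :=
  ∀ n : ℕ, ∃ N₀ : ℕ, ∀ (r k : ℕ), N₀ ≤ r → 2 ≤ k →
    ∀ (K : Type) [Field K] [CharZero K] (a : Matrix (Fin r) (Fin (n + r + 1)) K), SmoothDiag k a →
      ∀ (m e : ℕ) (S : Set (MvPolynomial (Fin (m + 1)) K))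
        (h : Fin (n + r + 1) → MvPolynomial (Fin (m + 1)) K), (∀ F ∈ S, ∃ d, F.IsHomogeneous d) →
        FiniteTo k a S e h → DimMer S (n / k)

/-- IMG (30 lines), uses MREL.  PROOF.  `exists_mer_of_curve` (DQ/Hol2.lean) and MREL. -/
def Stmt_IMG : Prop :=
  ∀ (K : Type) [Field K] (m M : ℕ) (S : Set (MvPolynomial (Fin (m + 1)) K)),
    (∀ F ∈ S, ∃ d, F.IsHomogeneous d) → DimMer S M →
    ∀ (σ : K →+* ℂ) (f : ℂ → PSpace ℂ m), HolomorphicOn f Set.univ →
      (∀ z, f z ∈ complexPoints S σ) → ImageDimLE f M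

/-- PAI (40 lines), uses DHO.  PROOF.  `DimMer S 0` or `DimMer S 1`, `x_(i₀) = 1`: apply the relation
to `s = ![i₀, i, j]` (for `M = 1`), DHO gives that `![x_i / 1, x_j / 1]` is not algebraically
independent.  For `M = 0` apply it to `s = ![i₀, i]`: `x_i` is not transcendental, so the pair is not
independent (`AlgebraicIndependent.comp`). -/
def Stmt_PAI : Prop :=
  ∀ (K : Type) [Field K] (m M : ℕ) (S : Set (MvPolynomial (Fin (m + 1)) K)), M ≤ 1 → DimMer S M →
    ∀ (σ : K →+* ℂ) (x : Fin (m + 1) → Mer) (i₀ : Fin (m + 1)), x i₀ = 1 →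
      (∀ F ∈ S, MvPolynomial.eval₂ ((algebraMap ℂ Mer).comp σ) x F = 0) →
      ∀ i j, ¬ AlgebraicIndependent ℂ ![x i, x j]

/-- GEX (60 lines), uses GEN NUS FMN CST.  PROOF.  If `X_σ` is not hyperbolic there is a nonconstant
entire curve (`exists_entire_curve`), and `exists_mer_of_curve` gives `x` with `x_i = 1`, `x_l` not
a constant.  `y_j = h_j(x)` as in DMX; GEN: all the `y_j` are constant multiples of `y_(j₀)`;
CST with `q = x_l / x_i = x_l`: contradiction. -/
def Stmt_GEX : Prop :=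
  ∀ n : ℕ, ∃ D : ℕ, ∀ (r k : ℕ), 2 ≤ k →
    ∀ (K : Type) [Field K] [CharZero K] (a : Matrix (Fin r) (Fin (n + r + 1)) K), SmoothDiag k a →
      ∀ l : Fin (n + r + 1) → Fin (n + 1) → K, IsParam a l → NoHypersurface D l →
      ∀ (m e : ℕ) (S : Set (MvPolynomial (Fin (m + 1)) K))
        (h : Fin (n + r + 1) → MvPolynomial (Fin (m + 1)) K), (∀ F ∈ S, ∃ d, F.IsHomogeneous d) →
        FiniteTo k a S e h → ∀ σ : K →+* ℂ, KobayashiHyperbolic (complexPoints S σ)

/-- THEOREM M, final form (without the sharpness clause). -/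
def Stmt_FINAL : Prop :=
  ∀ n : ℕ, ∃ N₀ D : ℕ, ∀ (r k : ℕ), 2 ≤ k →
    ∀ (K : Type) [Field K] [NumberField K] (a : Matrix (Fin r) (Fin (n + r + 1)) K),
      SmoothDiag k a →
      ∀ (m e : ℕ) (S : Set (MvPolynomial (Fin (m + 1)) K))
        (h : Fin (n + r + 1) → MvPolynomial (Fin (m + 1)) K), (∀ F ∈ S, ∃ d, F.IsHomogeneous d) →
        FiniteTo k a S e h →
        (N₀ ≤ r → ∀ (σ : K →+* ℂ) (f : ℂ → PSpace ℂ m), HolomorphicOn f Set.univ →
          (∀ z, f z ∈ complexPoints S σ) → ImageDimLE f (n / k)) ∧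
        (N₀ ≤ r → n < 2 * k →
          (∀ σ : K →+* ℂ, KobayashiHyperbolic (complexPoints S σ) ↔
            ¬ Pool.MCL.CubicImage S (AlgebraicClosure K) (algebraMap K (AlgebraicClosure K))) ∧
          (Pool.MCL.CubicImage S (AlgebraicClosure K) (algebraMap K (AlgebraicClosure K)) →
            ∃ (L : Type) (_ : Field L) (_ : Algebra K L) (_ : FiniteDimensional K L),
              (points S L).Infinite)) ∧
        ((∃ l : Fin (n + r + 1) → Fin (n + 1) → K, IsParam a l ∧ NoHypersurface D l) →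
          ∀ σ : K →+* ℂ, KobayashiHyperbolic (complexPoints S σ))

/-- FIA (40 lines), uses DMX IMG PAI GEX P6C (`Pool.MCL.stmt_P6C`).  PROOF of `Stmt_FINAL`:
`n < 2 k` gives `n / k ≤ 1`; PAI is the hypothesis of P6C. -/
def Stmt_FIA : Prop := Stmt_FINAL

end Pool.ThmM0
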